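import Pool.Agent.Helper45.PL4.Dir

/-!
# The equation at a critical point of the sphere
-/

set_option autoImplicit false
set_option linter.unusedSectionVars false
set_option linter.unusedVariables false

namespace Pool.Agent.Helper45.PL4

open MvPolynomial Finset Matrix
open Pool.Agent.H476R2.PL (Lp Lg eval_Lg euler eval_scale hom_pderiv)

variable {n : ℕ}

/-- the Hessian -/
noncomputable def Hs (u : MvPolynomial (Fin n) ℝ) (x : Fin n → ℝ) : Matrix (Fin n) (Fin n) ℝ :=
  Matrix.of fun i j => eval x (pderiv i (pderiv j u))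

theorem Hs_apply (u : MvPolynomial (Fin n) ℝ) (x : Fin n → ℝ) (i j : Fin n) :
    Hs u x i j = eval x (pderiv i (pderiv j u)) := rfl

theorem Hs_symm (u : MvPolynomial (Fin n) ℝ) (x : Fin n → ℝ) (i j : Fin n) :
    Hs u x i j = Hs u x j i := by
  rw [Hs_apply, Hs_apply, pderiv_comm]

theorem Hs_transpose (u : MvPolynomial (Fin n) ℝ) (x : Fin n → ℝ) : (Hs u x)ᵀ = Hs u x := by
  ext i j
  rw [transpose_apply, Hs_symm]

theorem Hs_mulVec (u : MvPolynomial (Fin n) ℝ) (x y : Fin n → ℝ) (i : Fin n) :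
    (Hs u x *ᵥ y) i = eval x (D y (pderiv i u)) := by
  rw [eval_D, mulVec, dotProduct]
  refine sum_congr rfl (fun j _ => ?_)
  rw [Hs_apply, pderiv_comm, mul_comm]

theorem trace_Hs (u : MvPolynomial (Fin n) ℝ) (x : Fin n → ℝ) :
    (Hs u x).trace = eval x (Lap u) := by
  unfold Lap
  rw [map_sum]
  rfl

/-- the symmetric matrix moves across the dot product -/
theorem move (H : Matrix (Fin n) (Fin n) ℝ) (hH : Hᵀ = H) (a b : Fin n → ℝ) :
    (H *ᵥ a) ⬝ᵥ b = a ⬝ᵥ (H *ᵥ b) := by
  rw [dotProduct_mulVec, ← mulVec_transpose, hH]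

theorem k1_eq (u : MvPolynomial (Fin n) ℝ) (x y : Fin n → ℝ) :
    y ⬝ᵥ (Hs u x *ᵥ y) = eval x (D y (D y u)) := by
  rw [eval_D, dotProduct]
  refine sum_congr rfl (fun i _ => ?_)
  rw [Hs_mulVec, D_pderiv]

theorem hess_x {u : MvPolynomial (Fin n) ℝ} {m : ℕ} (h : u.IsHomogeneous m) (x : Fin n → ℝ)
    (i : Fin n) : ∑ j, x j * eval x (pderiv i (pderiv j u)) =
      ((m - 1 : ℕ) : ℝ) * eval x (pderiv i u) := by
  rw [← euler (h.pderiv (i := i)) x]
  refine sum_congr rfl (fun j _ => ?_)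
  rw [pderiv_comm]

theorem Hs_x {u : MvPolynomial (Fin n) ℝ} {m : ℕ} (h : u.IsHomogeneous m) {x : Fin n → ℝ} {l : ℝ}
    (hg : ∀ i, eval x (pderiv i u) = l * x i) : Hs u x *ᵥ x = (((m - 1 : ℕ) : ℝ) * l) • x := by
  funext i
  have h1 := hess_x h x i
  rw [hg] at h1
  rw [Pi.smul_apply, smul_eq_mul, mulVec, dotProduct, mul_assoc, ← h1]
  refine sum_congr rfl (fun j _ => ?_)
  rw [Hs_apply, mul_comm]

/-- the equation at a critical point -/
theorem crit0 {u : MvPolynomial (Fin n) ℝ} {m : ℕ} (h : u.IsHomogeneous m) {s : ℝ}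
    (hL : Lg s u = 0) {x : Fin n → ℝ} {l : ℝ} (hl : l ≠ 0) (hx : x ⬝ᵥ x = 1)
    (hg : ∀ i, eval x (pderiv i u) = l * x i) :
    eval x (Lap u) = - (s * ((m - 1 : ℕ) : ℝ) * l) := by
  have h1 := congrArg (eval x) hL
  rw [eval_Lg, map_zero] at h1
  unfold Lp at h1
  have hx' : ∑ i, x i * x i = 1 := hx
  have e1 : ∑ i, eval x (pderiv i u) ^ 2 = l ^ 2 := by
    have : ∀ i, eval x (pderiv i u) ^ 2 = l ^ 2 * (x i * x i) := by
      intro i
      rw [hg]
      ring
    rw [sum_congr rfl (fun i _ => this i), ← mul_sum, hx', mul_one]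
  have e2 : ∑ i, ∑ j, eval x (pderiv i u) * eval x (pderiv j u) * eval x (pderiv i (pderiv j u)) =
      l ^ 2 * (((m - 1 : ℕ) : ℝ) * l) := by
    have : ∀ i, ∑ j, eval x (pderiv i u) * eval x (pderiv j u) * eval x (pderiv i (pderiv j u)) =
        l ^ 2 * (((m - 1 : ℕ) : ℝ) * l) * (x i * x i) := by
      intro i
      have h2 := hess_x h x i
      calc ∑ j, eval x (pderiv i u) * eval x (pderiv j u) * eval x (pderiv i (pderiv j u))
          = l * (l * x i) * ∑ j, x j * eval x (pderiv i (pderiv j u)) := by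
            rw [mul_sum]
            refine sum_congr rfl (fun j _ => ?_)
            rw [hg, hg]
            ring
        _ = _ := by rw [h2, hg]; ring
    rw [sum_congr rfl (fun i _ => this i), ← mul_sum, hx', mul_one]
  have e3 : ∑ i, eval x (pderiv i (pderiv i u)) = eval x (Lap u) := by
    unfold Lap
    rw [map_sum]
  rw [e1, e2, e3] at h1
  have h2 : l ^ 2 * (eval x (Lap u) + s * ((m - 1 : ℕ) : ℝ) * l) = 0 := by
    linear_combination h1
  rcases mul_eq_zero.1 h2 with h3 | h3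
  · exact absurd h3 (pow_ne_zero 2 hl)
  · linarith

/-- the first derivative at a critical point -/
theorem crit1 {u : MvPolynomial (Fin n) ℝ} {m : ℕ} (h : u.IsHomogeneous m) {s : ℝ}
    (hL : Lg s u = 0) {x y : Fin n → ℝ} {l : ℝ} (hl : l ≠ 0) (hx : x ⬝ᵥ x = 1)
    (hg : ∀ i, eval x (pderiv i u) = l * x i) (hxy : x ⬝ᵥ y = 0) :
    eval x (D y (Lap u)) = 0 := by
  have h1 := d_expand s u hL x y
  have hx' : ∑ i, x i * x i = 1 := hx
  have hxy' : ∑ i, x i * y i = 0 := hxy
  have hDy : eval x (D y u) = 0 := by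
    rw [eval_D]
    have : ∀ i, y i * eval x (pderiv i u) = l * (x i * y i) := by
      intro i; rw [hg]; ring
    rw [sum_congr rfl (fun i _ => this i), ← mul_sum, hxy', mul_zero]
  have E5 : ∑ i, x i * eval x (D y (pderiv i u)) = 0 := by
    have := euler (D_hom y h) x
    rw [hDy, mul_zero] at this
    rw [← this]
    refine sum_congr rfl (fun i _ => ?_)
    rw [D_pderiv]
  have E2 : ∀ i, ∑ j, x j * eval x (D y (pderiv i (pderiv j u))) =
      ((m - 1 - 1 : ℕ) : ℝ) * eval x (D y (pderiv i u)) := by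
    intro i
    rw [← euler (D_hom y (h.pderiv (i := i))) x]
    refine sum_congr rfl (fun j _ => ?_)
    rw [← D_pderiv, pderiv_comm]
  have e1 : ∑ i, eval x (pderiv i u) * eval x (D y (pderiv i u)) = 0 := by
    have : ∀ i, eval x (pderiv i u) * eval x (D y (pderiv i u)) =
        l * (x i * eval x (D y (pderiv i u))) := by
      intro i; rw [hg]; ring
    rw [sum_congr rfl (fun i _ => this i), ← mul_sum, E5, mul_zero]
  have e2 : ∑ i, eval x (pderiv i u) ^ 2 = l ^ 2 := by
    have : ∀ i, eval x (pderiv i u) ^ 2 = l ^ 2 * (x i * x i) := by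
      intro i
      rw [hg]
      ring
    rw [sum_congr rfl (fun i _ => this i), ← mul_sum, hx', mul_one]
  have e3 : ∑ i, ∑ j, eval x (D y (pderiv i u)) * eval x (pderiv j u) *
      eval x (pderiv i (pderiv j u)) = 0 := by
    have : ∀ i, ∑ j, eval x (D y (pderiv i u)) * eval x (pderiv j u) *
        eval x (pderiv i (pderiv j u)) =
        l * (((m - 1 : ℕ) : ℝ) * l) * (x i * eval x (D y (pderiv i u))) := by
      intro i
      have h2 := hess_x h x i
      calc ∑ j, eval x (D y (pderiv i u)) * eval x (pderiv j u) * eval x (pderiv i (pderiv j u))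
          = l * eval x (D y (pderiv i u)) * ∑ j, x j * eval x (pderiv i (pderiv j u)) := by
            rw [mul_sum]
            refine sum_congr rfl (fun j _ => ?_)
            rw [hg]
            ring
        _ = _ := by rw [h2, hg]; ring
    rw [sum_congr rfl (fun i _ => this i), ← mul_sum, E5, mul_zero]
  have e4 : ∑ i, ∑ j, eval x (pderiv i u) * eval x (pderiv j u) *
      eval x (D y (pderiv i (pderiv j u))) = 0 := by
    have : ∀ i, ∑ j, eval x (pderiv i u) * eval x (pderiv j u) *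
        eval x (D y (pderiv i (pderiv j u))) =
        l ^ 2 * ((m - 1 - 1 : ℕ) : ℝ) * (x i * eval x (D y (pderiv i u))) := by
      intro i
      calc ∑ j, eval x (pderiv i u) * eval x (pderiv j u) * eval x (D y (pderiv i (pderiv j u)))
          = l * (l * x i) * ∑ j, x j * eval x (D y (pderiv i (pderiv j u))) := by
            rw [mul_sum]
            refine sum_congr rfl (fun j _ => ?_)
            rw [hg, hg]
            ring
        _ = _ := by rw [E2]; ring
    rw [sum_congr rfl (fun i _ => this i), ← mul_sum, E5, mul_zero]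
  rw [e1, e2, e3, e4] at h1
  have h2 : l ^ 2 * eval x (D y (Lap u)) = 0 := by linear_combination h1
  rcases mul_eq_zero.1 h2 with h3 | h3
  · exact absurd h3 (pow_ne_zero 2 hl)
  · exact h3

/-- the second derivative at a critical point -/
theorem crit2 {u : MvPolynomial (Fin n) ℝ} {m : ℕ} (h : u.IsHomogeneous m) {s : ℝ}
    (hL : Lg s u = 0) {x y : Fin n → ℝ} {l : ℝ} (hl : l ≠ 0) (hx : x ⬝ᵥ x = 1)
    (hg : ∀ i, eval x (pderiv i u) = l * x i) (hxy : x ⬝ᵥ y = 0) :
    l ^ 2 * eval x (D y (D y (Lap u))) = - (s * (2 * ((Hs u x *ᵥ y) ⬝ᵥ (Hs u x *ᵥ (Hs u x *ᵥ y))) +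
      (4 * ((m - 1 - 1 : ℕ) : ℝ) - 2 * ((m - 1 : ℕ) : ℝ)) * l * ((Hs u x *ᵥ y) ⬝ᵥ (Hs u x *ᵥ y)) +
      ((m - 1 - 1 : ℕ) : ℝ) * ((m - 1 - 1 - 1 : ℕ) : ℝ) * l ^ 2 * (y ⬝ᵥ (Hs u x *ᵥ y)))) := by
  have h1 := dd_expand s u hL x y
  have hx' : ∑ i, x i * x i = 1 := hx
  have hxy' : ∑ i, x i * y i = 0 := hxy
  have hc0 := crit0 h hL hl hx hg
  have hDy : eval x (D y u) = 0 := by
    rw [eval_D]
    have : ∀ i, y i * eval x (pderiv i u) = l * (x i * y i) := by
      intro i; rw [hg]; ring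
    rw [sum_congr rfl (fun i _ => this i), ← mul_sum, hxy', mul_zero]
  have E5 : ∑ i, x i * eval x (D y (pderiv i u)) = 0 := by
    have := euler (D_hom y h) x
    rw [hDy, mul_zero] at this
    rw [← this]
    refine sum_congr rfl (fun i _ => ?_)
    rw [D_pderiv]
  have E2 : ∀ i, ∑ j, x j * eval x (D y (pderiv i (pderiv j u))) =
      ((m - 1 - 1 : ℕ) : ℝ) * eval x (D y (pderiv i u)) := by
    intro i
    rw [← euler (D_hom y (h.pderiv (i := i))) x]
    refine sum_congr rfl (fun j _ => ?_)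
    rw [← D_pderiv, pderiv_comm]
  have E3 : ∀ i, ∑ j, x j * eval x (D y (D y (pderiv i (pderiv j u)))) =
      ((m - 1 - 1 - 1 : ℕ) : ℝ) * eval x (D y (D y (pderiv i u))) := by
    intro i
    rw [← euler (D_hom y (D_hom y (h.pderiv (i := i)))) x]
    refine sum_congr rfl (fun j _ => ?_)
    rw [← D_pderiv, ← D_pderiv, pderiv_comm]
  have E4 : ∑ i, x i * eval x (D y (D y (pderiv i u))) =
      ((m - 1 - 1 : ℕ) : ℝ) * (y ⬝ᵥ (Hs u x *ᵥ y)) := by
    rw [k1_eq, ← euler (D_hom y (D_hom y h)) x]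
    refine sum_congr rfl (fun j _ => ?_)
    rw [← D_pderiv, ← D_pderiv]
  have e1 : ∑ i, eval x (pderiv i u) * eval x (D y (pderiv i u)) = 0 := by
    have : ∀ i, eval x (pderiv i u) * eval x (D y (pderiv i u)) =
        l * (x i * eval x (D y (pderiv i u))) := by
      intro i; rw [hg]; ring
    rw [sum_congr rfl (fun i _ => this i), ← mul_sum, E5, mul_zero]
  have e1' : ∑ i, eval x (pderiv i u) * eval x (D y (D y (pderiv i u))) =
      l * (((m - 1 - 1 : ℕ) : ℝ) * (y ⬝ᵥ (Hs u x *ᵥ y))) := by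
    have : ∀ i, eval x (pderiv i u) * eval x (D y (D y (pderiv i u))) =
        l * (x i * eval x (D y (D y (pderiv i u)))) := by
      intro i; rw [hg]; ring
    rw [sum_congr rfl (fun i _ => this i), ← mul_sum, E4]
  have e2 : ∑ i, eval x (pderiv i u) ^ 2 = l ^ 2 := by
    have : ∀ i, eval x (pderiv i u) ^ 2 = l ^ 2 * (x i * x i) := by
      intro i
      rw [hg]
      ring
    rw [sum_congr rfl (fun i _ => this i), ← mul_sum, hx', mul_one]
  have e5 : ∑ i, eval x (D y (pderiv i u)) ^ 2 = (Hs u x *ᵥ y) ⬝ᵥ (Hs u x *ᵥ y) := by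
    rw [dotProduct]
    refine sum_congr rfl (fun i _ => ?_)
    rw [Hs_mulVec]
    ring
  have e6 : ∑ i, ∑ j, eval x (D y (D y (pderiv i u))) * eval x (pderiv j u) *
      eval x (pderiv i (pderiv j u)) =
      l * (((m - 1 : ℕ) : ℝ) * l) * (((m - 1 - 1 : ℕ) : ℝ) * (y ⬝ᵥ (Hs u x *ᵥ y))) := by
    have : ∀ i, ∑ j, eval x (D y (D y (pderiv i u))) * eval x (pderiv j u) *
        eval x (pderiv i (pderiv j u)) =
        l * (((m - 1 : ℕ) : ℝ) * l) * (x i * eval x (D y (D y (pderiv i u)))) := by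
      intro i
      have h2 := hess_x h x i
      calc ∑ j, eval x (D y (D y (pderiv i u))) * eval x (pderiv j u) *
            eval x (pderiv i (pderiv j u))
          = l * eval x (D y (D y (pderiv i u))) * ∑ j, x j * eval x (pderiv i (pderiv j u)) := by
            rw [mul_sum]
            refine sum_congr rfl (fun j _ => ?_)
            rw [hg]
            ring
        _ = _ := by rw [h2, hg]; ring
    rw [sum_congr rfl (fun i _ => this i), ← mul_sum, E4]
  have e7 : ∑ i, ∑ j, eval x (D y (pderiv i u)) * eval x (D y (pderiv j u)) *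
      eval x (pderiv i (pderiv j u)) = (Hs u x *ᵥ y) ⬝ᵥ (Hs u x *ᵥ (Hs u x *ᵥ y)) := by
    rw [dotProduct]
    refine sum_congr rfl (fun i _ => ?_)
    rw [Hs_mulVec, Hs_mulVec, eval_D x (Hs u x *ᵥ y), mul_sum]
    refine sum_congr rfl (fun j _ => ?_)
    rw [Hs_mulVec, pderiv_comm]
    ring
  have e3 : ∑ i, ∑ j, eval x (D y (pderiv i u)) * eval x (pderiv j u) *
      eval x (D y (pderiv i (pderiv j u))) =
      l * ((m - 1 - 1 : ℕ) : ℝ) * ((Hs u x *ᵥ y) ⬝ᵥ (Hs u x *ᵥ y)) := by
    have : ∀ i, ∑ j, eval x (D y (pderiv i u)) * eval x (pderiv j u) *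
        eval x (D y (pderiv i (pderiv j u))) =
        l * ((m - 1 - 1 : ℕ) : ℝ) * (eval x (D y (pderiv i u)) ^ 2) := by
      intro i
      calc ∑ j, eval x (D y (pderiv i u)) * eval x (pderiv j u) *
            eval x (D y (pderiv i (pderiv j u)))
          = l * eval x (D y (pderiv i u)) * ∑ j, x j * eval x (D y (pderiv i (pderiv j u))) := by
            rw [mul_sum]
            refine sum_congr rfl (fun j _ => ?_)
            rw [hg]
            ring
        _ = _ := by rw [E2]; ring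
    rw [sum_congr rfl (fun i _ => this i), ← mul_sum, e5]
  have e4 : ∑ i, ∑ j, eval x (pderiv i u) * eval x (pderiv j u) *
      eval x (D y (D y (pderiv i (pderiv j u)))) =
      l ^ 2 * ((m - 1 - 1 - 1 : ℕ) : ℝ) * (((m - 1 - 1 : ℕ) : ℝ) * (y ⬝ᵥ (Hs u x *ᵥ y))) := by
    have : ∀ i, ∑ j, eval x (pderiv i u) * eval x (pderiv j u) *
        eval x (D y (D y (pderiv i (pderiv j u)))) =
        l ^ 2 * ((m - 1 - 1 - 1 : ℕ) : ℝ) * (x i * eval x (D y (D y (pderiv i u)))) := by
      intro i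
      calc ∑ j, eval x (pderiv i u) * eval x (pderiv j u) *
            eval x (D y (D y (pderiv i (pderiv j u))))
          = l * (l * x i) * ∑ j, x j * eval x (D y (D y (pderiv i (pderiv j u)))) := by
            rw [mul_sum]
            refine sum_congr rfl (fun j _ => ?_)
            rw [hg, hg]
            ring
        _ = _ := by rw [E3]; ring
    rw [sum_congr rfl (fun i _ => this i), ← mul_sum, E4]
  rw [e1, e1', e2, e3, e4, e5, e6, e7, hc0] at h1
  linear_combination h1

end Pool.Agent.Helper45.PL4
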