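import Pool.Graph.R_seed8.H476R2.PL.Top

/-!
# Directional derivatives of the expanded p-Laplace identity
-/

set_option autoImplicit false
set_option linter.unusedSectionVars false
set_option linter.unusedVariables false

namespace Pool.Agent.Helper45.PL4

open MvPolynomial Finset
open Pool.Agent.H476R2.PL (Lp Lg eval_Lg euler eval_scale hom_pderiv)

variable {n : ℕ}

theorem pderiv_comm (i j : Fin n) (u : MvPolynomial (Fin n) ℝ) :
    pderiv i (pderiv j u) = pderiv j (pderiv i u) := by
  ext e
  simp only [coeff_pderiv]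
  by_cases h : i = j
  · rw [h]
  · have h1 : e + Finsupp.single i 1 + Finsupp.single j 1 =
        e + Finsupp.single j 1 + Finsupp.single i 1 := by
      rw [add_right_comm]
    rw [h1]
    simp only [Finsupp.add_apply, Finsupp.single_eq_of_ne h, Finsupp.single_eq_of_ne (Ne.symm h),
      add_zero]
    ring

/-- the derivative in the direction `y` -/
noncomputable def D (y : Fin n → ℝ) (u : MvPolynomial (Fin n) ℝ) : MvPolynomial (Fin n) ℝ :=
  ∑ i, C (y i) * pderiv i u

theorem D_add (y : Fin n → ℝ) (u v : MvPolynomial (Fin n) ℝ) : D y (u + v) = D y u + D y v := by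
  unfold D
  rw [← sum_add_distrib]
  refine sum_congr rfl (fun i _ => ?_)
  rw [map_add]
  ring

theorem D_zero (y : Fin n → ℝ) : D y 0 = 0 := by
  unfold D
  simp

theorem D_C (y : Fin n → ℝ) (a : ℝ) : D y (C a) = 0 := by
  unfold D
  simp

theorem D_neg (y : Fin n → ℝ) (u : MvPolynomial (Fin n) ℝ) : D y (-u) = - D y u := by
  unfold D
  simp

theorem D_mul (y : Fin n → ℝ) (u v : MvPolynomial (Fin n) ℝ) :
    D y (u * v) = D y u * v + u * D y v := by
  unfold D
  rw [sum_mul, mul_sum, ← sum_add_distrib]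
  refine sum_congr rfl (fun i _ => ?_)
  rw [pderiv_mul]
  ring

theorem D_sum (y : Fin n → ℝ) {ι : Type} (s : Finset ι) (f : ι → MvPolynomial (Fin n) ℝ) :
    D y (∑ i ∈ s, f i) = ∑ i ∈ s, D y (f i) := by
  unfold D
  rw [sum_comm]
  refine sum_congr rfl (fun i _ => ?_)
  rw [map_sum, mul_sum]

theorem D_pderiv (y : Fin n → ℝ) (i : Fin n) (u : MvPolynomial (Fin n) ℝ) :
    D y (pderiv i u) = pderiv i (D y u) := by
  unfold D
  rw [map_sum]
  refine sum_congr rfl (fun j _ => ?_)
  rw [pderiv_mul, pderiv_C, zero_mul, zero_add, pderiv_comm]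

theorem D_comm (y z : Fin n → ℝ) (u : MvPolynomial (Fin n) ℝ) : D y (D z u) = D z (D y u) := by
  have h : D z (D y u) = ∑ i, C (z i) * pderiv i (D y u) := rfl
  rw [h]
  have h2 : D z u = ∑ i, C (z i) * pderiv i u := rfl
  rw [h2, D_sum]
  refine sum_congr rfl (fun i _ => ?_)
  rw [D_mul, D_C, zero_mul, zero_add, D_pderiv]

theorem D_hom (y : Fin n → ℝ) {u : MvPolynomial (Fin n) ℝ} {m : ℕ} (h : u.IsHomogeneous m) :
    (D y u).IsHomogeneous (m - 1) := by
  unfold D
  apply IsHomogeneous.sum
  intro i _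
  have := (isHomogeneous_C (Fin n) (y i)).mul (h.pderiv (i := i))
  simpa using this

theorem eval_D (x y : Fin n → ℝ) (u : MvPolynomial (Fin n) ℝ) :
    eval x (D y u) = ∑ i, y i * eval x (pderiv i u) := by
  unfold D
  simp

/-- Euler -/
theorem eulerD (x : Fin n → ℝ) {u : MvPolynomial (Fin n) ℝ} {m : ℕ} (h : u.IsHomogeneous m) :
    eval x (D x u) = m * eval x u := by
  rw [eval_D, euler h]

theorem hom_zero {u : MvPolynomial (Fin n) ℝ} (h : u.IsHomogeneous 0) (x z : Fin n → ℝ) :
    eval x u = eval z u := by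
  have h1 := eval_scale h 0 x
  have h2 := eval_scale h 0 z
  simp only [zero_mul, pow_zero, one_mul] at h1 h2
  rw [← h1, ← h2]

/-- the Laplacian -/
noncomputable def Lap (u : MvPolynomial (Fin n) ℝ) : MvPolynomial (Fin n) ℝ :=
  ∑ i, pderiv i (pderiv i u)

/-- the first derivative of the equation -/
theorem d_expand (s : ℝ) (u : MvPolynomial (Fin n) ℝ) (hL : Lg s u = 0) (x y : Fin n → ℝ) :
    2 * (∑ i, eval x (pderiv i u) * eval x (D y (pderiv i u))) * eval x (Lap u) +
      (∑ i, eval x (pderiv i u) ^ 2) * eval x (D y (Lap u)) +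
      s * (2 * (∑ i, ∑ j, eval x (D y (pderiv i u)) * eval x (pderiv j u) *
          eval x (pderiv i (pderiv j u))) +
        ∑ i, ∑ j, eval x (pderiv i u) * eval x (pderiv j u) *
          eval x (D y (pderiv i (pderiv j u)))) = 0 := by
  have h1 : D y (Lg s u) = 0 := by rw [hL, D_zero]
  have h2 := congrArg (eval x) h1
  have e1 : ∀ i j, eval x (D y (pderiv i u * pderiv j u * pderiv i (pderiv j u))) =
      eval x (D y (pderiv i u)) * eval x (pderiv j u) * eval x (pderiv i (pderiv j u)) +
      eval x (pderiv i u) * eval x (D y (pderiv j u)) * eval x (pderiv i (pderiv j u)) +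
      eval x (pderiv i u) * eval x (pderiv j u) * eval x (D y (pderiv i (pderiv j u))) := by
    intro i j
    rw [D_mul, D_mul]
    simp only [map_add, map_mul]
    ring
  have e2 : ∑ i, ∑ j, eval x (pderiv i u) * eval x (D y (pderiv j u)) *
      eval x (pderiv i (pderiv j u)) = ∑ i, ∑ j, eval x (D y (pderiv i u)) * eval x (pderiv j u) *
          eval x (pderiv i (pderiv j u)) := by
    rw [sum_comm]
    refine sum_congr rfl (fun i _ => sum_congr rfl (fun j _ => ?_))
    rw [pderiv_comm]
    ring
  have e3 : ∀ i, eval x (D y (pderiv i u ^ 2)) =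
      2 * (eval x (pderiv i u) * eval x (D y (pderiv i u))) := by
    intro i
    rw [sq, D_mul]
    simp only [map_add, map_mul]
    ring
  unfold Lg at h2
  rw [D_add, D_mul, D_mul, D_C, zero_mul, zero_add, D_sum, D_sum y univ (fun i => ∑ j, _)] at h2
  simp only [D_sum y univ (fun j => pderiv _ u * pderiv j u * pderiv _ (pderiv j u))] at h2
  simp only [map_add, map_mul, map_sum, eval_C, map_zero, e1, e3, sum_add_distrib, ← mul_sum] at h2
  rw [e2] at h2
  have e4 : ∑ i, eval x (pderiv i (pderiv i u)) = eval x (Lap u) := by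
    unfold Lap
    rw [map_sum]
  have e5 : eval x (D y (∑ i, pderiv i (pderiv i u))) = eval x (D y (Lap u)) := rfl
  rw [e4, e5] at h2
  simp only [map_pow] at h2
  linear_combination h2

/-- the second derivative of the equation -/
theorem dd_expand (s : ℝ) (u : MvPolynomial (Fin n) ℝ) (hL : Lg s u = 0) (x y : Fin n → ℝ) :
    (2 * (∑ i, eval x (D y (pderiv i u)) ^ 2) +
        2 * (∑ i, eval x (pderiv i u) * eval x (D y (D y (pderiv i u))))) * eval x (Lap u) +
      4 * (∑ i, eval x (pderiv i u) * eval x (D y (pderiv i u))) * eval x (D y (Lap u)) +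
      (∑ i, eval x (pderiv i u) ^ 2) * eval x (D y (D y (Lap u))) +
      s * (2 * (∑ i, ∑ j, eval x (D y (D y (pderiv i u))) * eval x (pderiv j u) *
          eval x (pderiv i (pderiv j u))) +
        2 * (∑ i, ∑ j, eval x (D y (pderiv i u)) * eval x (D y (pderiv j u)) *
          eval x (pderiv i (pderiv j u))) +
        4 * (∑ i, ∑ j, eval x (D y (pderiv i u)) * eval x (pderiv j u) *
          eval x (D y (pderiv i (pderiv j u)))) +
        ∑ i, ∑ j, eval x (pderiv i u) * eval x (pderiv j u) *
          eval x (D y (D y (pderiv i (pderiv j u))))) = 0 := by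
  have h1 : D y (D y (Lg s u)) = 0 := by rw [hL, D_zero, D_zero]
  have h2 := congrArg (eval x) h1
  have e1 : ∀ i j, eval x (D y (D y (pderiv i u * pderiv j u * pderiv i (pderiv j u)))) =
      eval x (D y (D y (pderiv i u))) * eval x (pderiv j u) * eval x (pderiv i (pderiv j u)) +
      eval x (pderiv i u) * eval x (D y (D y (pderiv j u))) * eval x (pderiv i (pderiv j u)) +
      (eval x (pderiv i u) * eval x (pderiv j u) * eval x (D y (D y (pderiv i (pderiv j u)))) +
      2 * (eval x (D y (pderiv i u)) * eval x (D y (pderiv j u)) * eval x (pderiv i (pderiv j u))) +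
      2 * (eval x (D y (pderiv i u)) * eval x (pderiv j u) * eval x (D y (pderiv i (pderiv j u)))) +
      2 * (eval x (pderiv i u) * eval x (D y (pderiv j u)) *
        eval x (D y (pderiv i (pderiv j u))))) := by
    intro i j
    simp only [D_mul, D_add, map_add, map_mul]
    ring
  have e2 : ∑ i, ∑ j, eval x (pderiv i u) * eval x (D y (D y (pderiv j u))) *
      eval x (pderiv i (pderiv j u)) = ∑ i, ∑ j, eval x (D y (D y (pderiv i u))) *
        eval x (pderiv j u) * eval x (pderiv i (pderiv j u)) := by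
    rw [sum_comm]
    refine sum_congr rfl (fun i _ => sum_congr rfl (fun j _ => ?_))
    rw [pderiv_comm]
    ring
  have e2' : ∑ i, ∑ j, eval x (pderiv i u) * eval x (D y (pderiv j u)) *
      eval x (D y (pderiv i (pderiv j u))) = ∑ i, ∑ j, eval x (D y (pderiv i u)) *
        eval x (pderiv j u) * eval x (D y (pderiv i (pderiv j u))) := by
    rw [sum_comm]
    refine sum_congr rfl (fun i _ => sum_congr rfl (fun j _ => ?_))
    rw [pderiv_comm]
    ring
  have e3 : ∀ i, eval x (D y (D y (pderiv i u ^ 2))) =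
      2 * (eval x (pderiv i u) * eval x (D y (D y (pderiv i u)))) +
        2 * (eval x (D y (pderiv i u)) ^ 2) := by
    intro i
    rw [sq]
    simp only [D_mul, D_add, map_add, map_mul]
    ring
  have e3' : ∀ i, eval x (D y (pderiv i u ^ 2)) =
      2 * (eval x (pderiv i u) * eval x (D y (pderiv i u))) := by
    intro i
    rw [sq, D_mul]
    simp only [map_add, map_mul]
    ring
  have hLg : Lg s u = (∑ i, pderiv i u ^ 2) * Lap u +
      C s * ∑ i, ∑ j, pderiv i u * pderiv j u * pderiv i (pderiv j u) := rfl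
  have f1 : D y (D y ((∑ i, pderiv i u ^ 2) * Lap u)) =
      D y (D y (∑ i, pderiv i u ^ 2)) * Lap u + 2 * (D y (∑ i, pderiv i u ^ 2) * D y (Lap u)) +
        (∑ i, pderiv i u ^ 2) * D y (D y (Lap u)) := by
    simp only [D_mul, D_add]
    ring
  have f2 : ∀ Q : MvPolynomial (Fin n) ℝ, D y (D y (C s * Q)) = C s * D y (D y Q) := by
    intro Q
    simp only [D_mul, D_C, zero_mul, zero_add]
  rw [hLg, D_add, D_add, f1, f2] at h2
  have g1 : eval x (D y (D y (∑ i, pderiv i u ^ 2))) =
      ∑ i, eval x (D y (D y (pderiv i u ^ 2))) := by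
    rw [D_sum, D_sum, map_sum]
  have g2 : eval x (D y (∑ i, pderiv i u ^ 2)) =
      ∑ i, eval x (D y (pderiv i u ^ 2)) := by
    rw [D_sum, map_sum]
  have g3 : eval x (D y (D y (∑ i, ∑ j, pderiv i u * pderiv j u * pderiv i (pderiv j u)))) =
      ∑ i, ∑ j, eval x (D y (D y (pderiv i u * pderiv j u * pderiv i (pderiv j u)))) := by
    rw [D_sum, D_sum, map_sum]
    refine sum_congr rfl (fun i _ => ?_)
    rw [D_sum, D_sum, map_sum]
  have hC2 : (2 : MvPolynomial (Fin n) ℝ) = C 2 := rfl
  rw [hC2] at h2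
  simp only [map_add, map_mul, eval_C, map_zero, g1, g2, g3, e1, e3, e3', sum_add_distrib,
    ← mul_sum, map_sum, map_pow] at h2
  rw [e2, e2'] at h2
  linear_combination h2

end Pool.Agent.Helper45.PL4
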