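import Pool.Agent.Helper45.PL4.Crit

/-!
# Linear algebra at a critical point: degrees two, three and four
-/

set_option autoImplicit false
set_option linter.unusedSectionVars false
set_option linter.unusedVariables false

namespace Pool.Agent.Helper45.PL4

open MvPolynomial Finset Matrix
open Pool.Agent.H476R2.PL (Lp Lg eval_Lg euler eval_scale hom_pderiv)

variable {n : ℕ}

theorem dot_self_zero {v : Fin n → ℝ} (h : v ⬝ᵥ v = 0) : v = 0 := dotProduct_self_eq_zero.1 h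

theorem dot_self_nonneg (v : Fin n → ℝ) : 0 ≤ v ⬝ᵥ v :=
  sum_nonneg fun i _ => mul_self_nonneg (v i)

/-- the form on a combination -/
theorem quad_comb (H : Matrix (Fin n) (Fin n) ℝ) (hH : Hᵀ = H) (a b : Fin n → ℝ) (r t : ℝ) :
    (r • a - t • b) ⬝ᵥ (H *ᵥ (r • a - t • b)) =
      r ^ 2 * (a ⬝ᵥ (H *ᵥ a)) - 2 * r * t * (a ⬝ᵥ (H *ᵥ b)) + t ^ 2 * (b ⬝ᵥ (H *ᵥ b)) := by
  have h1 : b ⬝ᵥ (H *ᵥ a) = a ⬝ᵥ (H *ᵥ b) := by
    rw [← move H hH, dotProduct_comm]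
  rw [mulVec_sub, mulVec_smul, mulVec_smul]
  simp only [sub_dotProduct, dotProduct_sub, smul_dotProduct, dotProduct_smul, smul_eq_mul, h1]
  ring

/-- the trace through the standard basis -/
theorem trace_sum (H : Matrix (Fin n) (Fin n) ℝ) (hH : Hᵀ = H) (v : Fin n → ℝ) (r : ℝ) :
    ∑ i, (r • (Pi.single i 1 : Fin n → ℝ) - v i • v) ⬝ᵥ
      (H *ᵥ (r • (Pi.single i 1 : Fin n → ℝ) - v i • v)) =
      r ^ 2 * H.trace - 2 * r * (v ⬝ᵥ (H *ᵥ v)) + (v ⬝ᵥ v) * (v ⬝ᵥ (H *ᵥ v)) := by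
  have h1 : ∀ i, (r • (Pi.single i 1 : Fin n → ℝ) - v i • v) ⬝ᵥ
      (H *ᵥ (r • (Pi.single i 1 : Fin n → ℝ) - v i • v)) =
      r ^ 2 * H i i - 2 * r * (v i * (H *ᵥ v) i) + (v i * v i) * (v ⬝ᵥ (H *ᵥ v)) := by
    intro i
    rw [quad_comb H hH, single_one_dotProduct, single_one_dotProduct, mulVec_single_one]
    rw [col_apply]
    ring
  rw [sum_congr rfl (fun i _ => h1 i), sum_add_distrib, sum_sub_distrib, ← mul_sum, ← mul_sum,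
    ← sum_mul]
  rfl

/-- positive on the orthogonal complement of an eigenvector -/
theorem traceA (H : Matrix (Fin n) (Fin n) ℝ) (hH : Hᵀ = H) {x : Fin n → ℝ} (hx : x ⬝ᵥ x = 1)
    {μ : ℝ} (hμ : H *ᵥ x = μ • x) (hp : ∀ y, x ⬝ᵥ y = 0 → 0 ≤ y ⬝ᵥ (H *ᵥ y)) : μ ≤ H.trace := by
  have h1 := trace_sum H hH x 1
  have h2 : x ⬝ᵥ (H *ᵥ x) = μ := by rw [hμ, dotProduct_smul, hx, smul_eq_mul, mul_one]
  rw [h2, hx] at h1
  have h3 : 0 ≤ ∑ i, ((1 : ℝ) • (Pi.single i 1 : Fin n → ℝ) - x i • x) ⬝ᵥ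
      (H *ᵥ ((1 : ℝ) • (Pi.single i 1 : Fin n → ℝ) - x i • x)) := by
    refine sum_nonneg (fun i _ => hp _ ?_)
    rw [dotProduct_sub, dotProduct_smul, dotProduct_smul, hx, dotProduct_single_one]
    simp
  linarith

/-- a nonnegative form is bounded by the trace -/
theorem psd_trace (H : Matrix (Fin n) (Fin n) ℝ) (hH : Hᵀ = H)
    (hp : ∀ y, 0 ≤ y ⬝ᵥ (H *ᵥ y)) (v : Fin n → ℝ) : v ⬝ᵥ (H *ᵥ v) ≤ H.trace * (v ⬝ᵥ v) := by
  have h1 := trace_sum H hH v (v ⬝ᵥ v)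
  have h3 : 0 ≤ ∑ i, ((v ⬝ᵥ v) • (Pi.single i 1 : Fin n → ℝ) - v i • v) ⬝ᵥ
      (H *ᵥ ((v ⬝ᵥ v) • (Pi.single i 1 : Fin n → ℝ) - v i • v)) :=
    sum_nonneg (fun i _ => hp _)
  rw [h1] at h3
  rcases (dot_self_nonneg v).lt_or_eq with h | h
  · have h4 : 0 ≤ (v ⬝ᵥ v) * (H.trace * (v ⬝ᵥ v) - v ⬝ᵥ (H *ᵥ v)) := by
      linarith
    have h5 := nonneg_of_mul_nonneg_right h4 h
    linarith
  · have h5 := dot_self_zero h.symm
    rw [h5]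
    simp

/-- polarization -/
theorem pol (C : Matrix (Fin n) (Fin n) ℝ) (hC : Cᵀ = C) {x : Fin n → ℝ} {γ : ℝ}
    (hx : C *ᵥ x = γ • x) (hq : ∀ y, x ⬝ᵥ y = 0 → y ⬝ᵥ (C *ᵥ y) = 0) (y : Fin n → ℝ)
    (hy : x ⬝ᵥ y = 0) : C *ᵥ y = 0 := by
  apply dot_self_zero
  have hz : x ⬝ᵥ (C *ᵥ y) = 0 := by
    rw [← move C hC, hx, smul_dotProduct, hy, smul_zero]
  have h1 := hq _ hz
  have h2 := hq _ hy
  have h3 := hq ((1 : ℝ) • (C *ᵥ y) - (-1 : ℝ) • y) (by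
    rw [dotProduct_sub, dotProduct_smul, dotProduct_smul, hz, hy]; simp)
  rw [quad_comb C hC, h1, h2] at h3
  linarith

theorem tr_pow2 (H : Matrix (Fin n) (Fin n) ℝ) (hH : Hᵀ = H) : (H * H)ᵀ = H * H := by
  rw [transpose_mul, hH]

theorem tr_pow3 (H : Matrix (Fin n) (Fin n) ℝ) (hH : Hᵀ = H) : (H * (H * H))ᵀ = H * (H * H) := by
  rw [transpose_mul, transpose_mul, hH, mul_assoc]

theorem Hom0_D {u : MvPolynomial (Fin n) ℝ} (h : u.IsHomogeneous 0) (y : Fin n → ℝ) :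
    D y u = 0 := by
  rw [← totalDegree_zero_iff_isHomogeneous, totalDegree_eq_zero_iff_eq_C] at h
  rw [h, D_C]

theorem Lap_hom {u : MvPolynomial (Fin n) ℝ} {m : ℕ} (h : u.IsHomogeneous m) :
    (Lap u).IsHomogeneous (m - 1 - 1) := by
  unfold Lap
  apply IsHomogeneous.sum
  intro i _
  exact (h.pderiv (i := i)).pderiv (i := i)

/-- a positive critical value with a Hessian nonnegative on the orthogonal complement -/
theorem contr {u : MvPolynomial (Fin n) ℝ} {m : ℕ} (hm : 2 ≤ m) (h : u.IsHomogeneous m) {s : ℝ}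
    (hs : -1 < s) (hL : Lg s u = 0) {x : Fin n → ℝ} {l : ℝ} (hl : 0 < l) (hx : x ⬝ᵥ x = 1)
    (hg : ∀ i, eval x (pderiv i u) = l * x i)
    (hp : ∀ y, x ⬝ᵥ y = 0 → 0 ≤ y ⬝ᵥ (Hs u x *ᵥ y)) : False := by
  have h1 := traceA (Hs u x) (Hs_transpose u x) hx (Hs_x h hg) hp
  rw [trace_Hs, crit0 h hL hl.ne' hx hg] at h1
  have h2 : (1 : ℝ) ≤ ((m - 1 : ℕ) : ℝ) := by
    exact_mod_cast (by omega : 1 ≤ m - 1)
  have h3 : 0 < ((m - 1 : ℕ) : ℝ) * l := by positivity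
  nlinarith

/-- degrees two and three -/
theorem low_degree {u : MvPolynomial (Fin n) ℝ} {m : ℕ} (hm : m = 2 ∨ m = 3)
    (h : u.IsHomogeneous m) {s : ℝ} (hs : -1 < s) (hs0 : s ≠ 0) (hL : Lg s u = 0)
    {x : Fin n → ℝ} {l : ℝ} (hl : 0 < l) (hx : x ⬝ᵥ x = 1)
    (hg : ∀ i, eval x (pderiv i u) = l * x i) : False := by
  have hH := Hs_transpose u x
  obtain ⟨τ, hτ0, hτ⟩ : ∃ τ : ℝ, 0 ≤ τ ∧ ∀ y, x ⬝ᵥ y = 0 →
      (Hs u x *ᵥ y) ⬝ᵥ (Hs u x *ᵥ (Hs u x *ᵥ y)) = τ * ((Hs u x *ᵥ y) ⬝ᵥ (Hs u x *ᵥ y)) := by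
    rcases hm with rfl | rfl
    · refine ⟨l, hl.le, fun y hy => ?_⟩
      have h1 := crit2 h hL hl.ne' hx hg hy
      have h2 : D y (D y (Lap u)) = 0 := by
        rw [Hom0_D (Lap_hom h), D_zero]
      rw [h2, map_zero] at h1
      generalize (Hs u x *ᵥ y) ⬝ᵥ (Hs u x *ᵥ (Hs u x *ᵥ y)) = k3 at h1 ⊢
      generalize (Hs u x *ᵥ y) ⬝ᵥ (Hs u x *ᵥ y) = k2 at h1 ⊢
      generalize y ⬝ᵥ (Hs u x *ᵥ y) = k1 at h1
      norm_num at h1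
      rcases h1 with h3 | h3
      · exact absurd h3 hs0
      · linarith
    · refine ⟨0, le_rfl, fun y hy => ?_⟩
      have h1 := crit2 h hL hl.ne' hx hg hy
      have h2 : D y (D y (Lap u)) = 0 := by
        have := D_hom y (Lap_hom h)
        exact Hom0_D this y
      rw [h2, map_zero] at h1
      generalize (Hs u x *ᵥ y) ⬝ᵥ (Hs u x *ᵥ (Hs u x *ᵥ y)) = k3 at h1 ⊢
      generalize (Hs u x *ᵥ y) ⬝ᵥ (Hs u x *ᵥ y) = k2 at h1 ⊢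
      generalize y ⬝ᵥ (Hs u x *ᵥ y) = k1 at h1
      norm_num at h1
      rcases h1 with h3 | h3
      · exact absurd h3 hs0
      · linarith
  set H := Hs u x with hHdef
  have hHx := Hs_x h hg
  rw [← hHdef] at hHx
  refine contr (by omega) h hs hL hl hx hg (fun y hy => ?_)
  rw [← hHdef]
  have hC := pol (H * (H * H) - τ • (H * H))
    (by rw [transpose_sub, transpose_smul, tr_pow2 H hH, tr_pow3 H hH])
    (x := x) (γ := (((m - 1 : ℕ) : ℝ) * l) ^ 3 - τ * (((m - 1 : ℕ) : ℝ) * l) ^ 2) (by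
      rw [sub_mulVec, smul_mulVec, ← mulVec_mulVec, ← mulVec_mulVec]
      simp only [mulVec_smul, hHx, smul_smul, ← sub_smul]
      congr 1
      ring) (by
      intro z hz
      have h3 := hτ z hz
      rw [sub_mulVec, smul_mulVec, ← mulVec_mulVec, ← mulVec_mulVec, dotProduct_sub,
        dotProduct_smul, ← move H hH z (H *ᵥ (H *ᵥ z)), ← move H hH z (H *ᵥ z), h3, smul_eq_mul,
        sub_self]) y hy
  rw [sub_mulVec, smul_mulVec, ← mulVec_mulVec, ← mulVec_mulVec] at hC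
  have hz : H *ᵥ (H *ᵥ y) - τ • (H *ᵥ y) = 0 := by
    apply dot_self_zero
    have e1 : H *ᵥ (H *ᵥ (H *ᵥ y) - τ • (H *ᵥ y)) = 0 := by
      rw [mulVec_sub, mulVec_smul]
      exact hC
    have e2 : H *ᵥ (H *ᵥ y) - τ • (H *ᵥ y) = H *ᵥ (H *ᵥ y - τ • y) := by
      rw [mulVec_sub, mulVec_smul]
    calc (H *ᵥ (H *ᵥ y) - τ • (H *ᵥ y)) ⬝ᵥ (H *ᵥ (H *ᵥ y) - τ • (H *ᵥ y))
        = (H *ᵥ (H *ᵥ y - τ • y)) ⬝ᵥ (H *ᵥ (H *ᵥ y) - τ • (H *ᵥ y)) := by rw [← e2]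
      _ = (H *ᵥ y - τ • y) ⬝ᵥ (H *ᵥ (H *ᵥ (H *ᵥ y) - τ • (H *ᵥ y))) := move H hH _ _
      _ = 0 := by rw [e1, dotProduct_zero]
  have hk : (H *ᵥ y) ⬝ᵥ (H *ᵥ y) = τ * (y ⬝ᵥ (H *ᵥ y)) := by
    rw [move H hH, sub_eq_zero.1 hz, dotProduct_smul, smul_eq_mul]
  rcases hτ0.lt_or_eq with h0 | h0
  · have h4 := dot_self_nonneg (H *ᵥ y)
    rw [hk] at h4
    exact nonneg_of_mul_nonneg_right h4 h0
  · rw [← h0, zero_mul] at hk
    rw [dot_self_zero hk, dotProduct_zero]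

/-- eigenvector from the cubic relation -/
theorem eig (H : Matrix (Fin n) (Fin n) ℝ) (hH : Hᵀ = H) {l r : ℝ} (hl : l ≠ 0) {v : Fin n → ℝ}
    (hv : H *ᵥ (H *ᵥ (H *ᵥ v)) + l • (H *ᵥ (H *ᵥ v)) + l ^ 2 • (H *ᵥ v) = r • v) :
    ∃ η : ℝ, H *ᵥ v = η • v ∧ η ^ 3 + l * η ^ 2 + l ^ 2 * η = r := by
  obtain ⟨η, hη⟩ : ∃ η : ℝ, η ^ 3 + l * η ^ 2 + l ^ 2 * η = r := by
    set M : ℝ := |r| + 2 with hM
    have hr0 := abs_nonneg r
    have hcont : ContinuousOn (fun t : ℝ => t ^ 3 + l * t ^ 2 + l ^ 2 * t) (Set.Icc (-M) M) := by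
      fun_prop
    have hiv := intermediate_value_Icc (by linarith : -M ≤ M) hcont
    have h1 : r ≤ M ^ 3 + l * M ^ 2 + l ^ 2 * M := by
      have a1 : M ^ 3 + l * M ^ 2 + l ^ 2 * M = M * ((l + M / 2) ^ 2 + 3 / 4 * M ^ 2) := by ring
      have a2 : 3 / 4 * M ^ 2 ≥ 1 := by nlinarith
      have a3 : M * 1 ≤ M * ((l + M / 2) ^ 2 + 3 / 4 * M ^ 2) :=
        mul_le_mul_of_nonneg_left (by nlinarith [sq_nonneg (l + M / 2)]) (by linarith)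
      rw [a1]
      linarith [le_abs_self r]
    have h2 : (-M) ^ 3 + l * (-M) ^ 2 + l ^ 2 * (-M) ≤ r := by
      have a1 : (-M) ^ 3 + l * (-M) ^ 2 + l ^ 2 * (-M) =
          -(M * ((l - M / 2) ^ 2 + 3 / 4 * M ^ 2)) := by ring
      have a2 : 3 / 4 * M ^ 2 ≥ 1 := by nlinarith
      have a3 : M * 1 ≤ M * ((l - M / 2) ^ 2 + 3 / 4 * M ^ 2) :=
        mul_le_mul_of_nonneg_left (by nlinarith [sq_nonneg (l - M / 2)]) (by linarith)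
      rw [a1]
      linarith [neg_abs_le r]
    obtain ⟨t, -, ht⟩ := hiv ⟨h2, h1⟩
    exact ⟨t, ht⟩
  refine ⟨η, ?_, hη⟩
  set w := H *ᵥ v - η • v with hw
  have hw0 : H *ᵥ (H *ᵥ w) + (η + l) • (H *ᵥ w) + (η ^ 2 + η * l + l ^ 2) • w = 0 := by
    have e1 : H *ᵥ w = H *ᵥ (H *ᵥ v) - η • (H *ᵥ v) := by rw [hw, mulVec_sub, mulVec_smul]
    have e2 : H *ᵥ (H *ᵥ w) = H *ᵥ (H *ᵥ (H *ᵥ v)) - η • (H *ᵥ (H *ᵥ v)) := by
      rw [e1, mulVec_sub, mulVec_smul]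
    rw [e2, e1, hw]
    have e3 : H *ᵥ (H *ᵥ (H *ᵥ v)) = r • v - l • (H *ᵥ (H *ᵥ v)) - l ^ 2 • (H *ᵥ v) := by
      rw [← hv]; abel
    rw [e3, ← hη]
    funext i
    simp only [Pi.add_apply, Pi.sub_apply, Pi.smul_apply, smul_eq_mul, Pi.zero_apply]
    ring
  have h1 := congrArg (fun z => w ⬝ᵥ z) hw0
  simp only [dotProduct_add, dotProduct_smul, dotProduct_zero, smul_eq_mul] at h1
  rw [← move H hH w (H *ᵥ w)] at h1
  have h2 := dot_self_nonneg ((1 : ℝ) • (H *ᵥ w) + ((η + l) / 2) • w)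
  have h3 : (H *ᵥ w) ⬝ᵥ w = w ⬝ᵥ (H *ᵥ w) := dotProduct_comm _ _
  simp only [add_dotProduct, dotProduct_add, smul_dotProduct, dotProduct_smul, smul_eq_mul, h3] at h2
  have h4 : (3 * η ^ 2 + 2 * η * l + 3 * l ^ 2) * (w ⬝ᵥ w) ≤ 0 := by nlinarith
  have h5 : 0 < 3 * η ^ 2 + 2 * η * l + 3 * l ^ 2 := by
    have : 0 < l ^ 2 := by positivity
    nlinarith [sq_nonneg (η + l)]
  have h6 : w ⬝ᵥ w = 0 := by
    have h7 := dot_self_nonneg w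
    by_contra hne
    have h8 : 0 < w ⬝ᵥ w := lt_of_le_of_ne h7 (Ne.symm hne)
    have := mul_pos h5 h8
    linarith
  have h7 := dot_self_zero h6
  exact sub_eq_zero.1 h7

end Pool.Agent.Helper45.PL4
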