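import Pool.Agent.Helper45.PL4.Nonneg

/-!
# Polynomial solutions of degree at most four
-/

set_option autoImplicit false
set_option linter.unusedSectionVars false
set_option linter.unusedVariables false

namespace Pool.Agent.Helper45.PL4

open MvPolynomial Finset Matrix
open Pool.Agent.H476R2.PL (Lp Lg eval_Lg euler eval_scale hom_pderiv circle_deriv cp)

variable {n : ℕ}

/-- orthogonal projection to a subspace -/
theorem proj (Z : Set (Fin n → ℝ)) (h0 : (0 : Fin n → ℝ) ∈ Z)
    (hadd : ∀ a ∈ Z, ∀ b ∈ Z, a + b ∈ Z) (hsmul : ∀ (c : ℝ), ∀ a ∈ Z, c • a ∈ Z)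
    (a : Fin n → ℝ) : ∃ z ∈ Z, ∀ w ∈ Z, (a - z) ⬝ᵥ w = 0 := by
  let K : Submodule ℝ (EuclideanSpace ℝ (Fin n)) :=
    { carrier := {v | v.ofLp ∈ Z}
      add_mem' := fun {a b} ha hb => hadd _ ha _ hb
      zero_mem' := h0
      smul_mem' := fun c a ha => hsmul c _ ha }
  refine ⟨(K.starProjection (WithLp.toLp 2 a)).ofLp, K.starProjection_apply_mem _, fun w hw => ?_⟩
  have h1 := K.sub_starProjection_mem_orthogonal (WithLp.toLp 2 a)
  have h2 := (Submodule.mem_orthogonal K _).1 h1 (WithLp.toLp 2 w) hw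
  rw [EuclideanSpace.inner_eq_star_dotProduct] at h2
  simpa using h2

theorem sphere_compact : IsCompact {y : Fin n → ℝ | y ⬝ᵥ y = 1} := by
  apply Metric.isCompact_of_isClosed_isBounded
  · apply isClosed_eq _ continuous_const
    unfold dotProduct
    fun_prop
  · refine (Metric.isBounded_closedBall (x := (0 : Fin n → ℝ)) (r := 1)).subset ?_
    intro y hy
    rw [mem_closedBall_zero_iff, pi_norm_le_iff_of_nonneg (by norm_num)]
    intro i
    have h1 : y i * y i ≤ ∑ i, y i * y i :=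
      single_le_sum (f := fun i => y i * y i) (fun i _ => mul_self_nonneg _) (mem_univ i)
    have h2 : ∑ i, y i * y i = 1 := hy
    rw [h2] at h1
    rw [Real.norm_eq_abs, abs_le]
    constructor <;> nlinarith

theorem normalize {a : Fin n → ℝ} (ha : a ≠ 0) :
    ∃ N : ℝ, 0 < N ∧ N * N = a ⬝ᵥ a ∧ (fun i => N⁻¹ * a i) ⬝ᵥ (fun i => N⁻¹ * a i) = 1 := by
  have hpos : 0 < a ⬝ᵥ a :=
    lt_of_le_of_ne (dot_self_nonneg a) (fun h => ha (dot_self_zero h.symm))
  refine ⟨Real.sqrt (a ⬝ᵥ a), Real.sqrt_pos.2 hpos, Real.mul_self_sqrt hpos.le, ?_⟩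
  have hN := Real.sqrt_pos.2 hpos
  have hNN := Real.mul_self_sqrt hpos.le
  have h1 : (fun i => (Real.sqrt (a ⬝ᵥ a))⁻¹ * a i) = (Real.sqrt (a ⬝ᵥ a))⁻¹ • a := rfl
  rw [h1, smul_dotProduct, dotProduct_smul, smul_eq_mul, smul_eq_mul]
  nth_rewrite 3 [← hNN]
  field_simp

theorem eval_zero' {u : MvPolynomial (Fin n) ℝ} {m : ℕ} (hm : m ≠ 0) (h : u.IsHomogeneous m) :
    eval (0 : Fin n → ℝ) u = 0 := by
  have h1 := eval_scale h 0 (0 : Fin n → ℝ)
  simp only [zero_mul, zero_pow hm] at h1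
  exact h1

/-- a vector orthogonal to the complement is a multiple -/
theorem prop_of_orth {g x : Fin n → ℝ} (hx : x ⬝ᵥ x = 1) (h : ∀ y, x ⬝ᵥ y = 0 → y ⬝ᵥ g = 0) :
    ∀ i, g i = (x ⬝ᵥ g) * x i := by
  have h1 : x ⬝ᵥ (g - (x ⬝ᵥ g) • x) = 0 := by
    rw [dotProduct_sub, dotProduct_smul, hx, smul_eq_mul, mul_one, sub_self]
  have h2 := h _ h1
  have h3 : (g - (x ⬝ᵥ g) • x) ⬝ᵥ (g - (x ⬝ᵥ g) • x) = 0 := by
    rw [dotProduct_sub, h2, dotProduct_smul, dotProduct_comm _ x, h1, smul_zero, sub_zero]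
  have h4 := sub_eq_zero.1 (dot_self_zero h3)
  intro i
  have := congrFun h4 i
  simpa using this

/-- a nonnegative quartic solution vanishes -/
theorem nonneg_zero {u : MvPolynomial (Fin n) ℝ} (h : u.IsHomogeneous 4) {s : ℝ} (hs : -1 < s)
    (hL : Lg s u = 0) (hpos : ∀ z, 0 ≤ eval z u) (z : Fin n → ℝ) : eval z u = 0 := by
  by_contra hne
  set Z : Set (Fin n → ℝ) := {z | eval z u = 0} with hZ
  have hnull : ∀ z ∈ Z, ∀ y : Fin n → ℝ, eval (z + y) u = eval y u :=
    fun z hz y => null_dir h hs hL hpos hz y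
  have h0 : (0 : Fin n → ℝ) ∈ Z := eval_zero' (by norm_num) h
  have hadd : ∀ a ∈ Z, ∀ b ∈ Z, a + b ∈ Z := by
    intro a ha b hb
    show eval (a + b) u = 0
    rw [hnull a ha]
    exact hb
  have hsmul : ∀ (c : ℝ), ∀ a ∈ Z, c • a ∈ Z := by
    intro c a ha
    have h1 := eval_scale h c a
    have h2 : eval a u = 0 := ha
    rw [h2, mul_zero] at h1
    exact h1
  have hdecomp : ∀ a : Fin n → ℝ, ∃ w : Fin n → ℝ, eval w u = eval a u ∧ (∀ v ∈ Z, w ⬝ᵥ v = 0) ∧
      ∀ x : Fin n → ℝ, (∀ v ∈ Z, x ⬝ᵥ v = 0) → x ⬝ᵥ w = x ⬝ᵥ a := by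
    intro a
    obtain ⟨z0, hz0, hw⟩ := proj Z h0 hadd hsmul a
    refine ⟨a - z0, ?_, hw, fun x hx => ?_⟩
    · have := hnull z0 hz0 (a - z0)
      rw [add_sub_cancel] at this
      exact this.symm
    · rw [dotProduct_sub, hx z0 hz0, sub_zero]
  set K : Set (Fin n → ℝ) := {y | y ⬝ᵥ y = 1} ∩ ⋂ v ∈ Z, {x | x ⬝ᵥ v = 0} with hK
  have hKc : IsCompact K := by
    apply sphere_compact.inter_right
    apply isClosed_biInter
    intro v _
    apply isClosed_eq _ continuous_const
    unfold dotProduct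
    fun_prop
  have hKmem : ∀ x : Fin n → ℝ, x ∈ K ↔ x ⬝ᵥ x = 1 ∧ ∀ v ∈ Z, x ⬝ᵥ v = 0 := by
    intro x
    rw [hK]
    simp only [Set.mem_inter_iff, Set.mem_ofPred_eq, Set.mem_iInter]
  have hnorm : ∀ w : Fin n → ℝ, eval w u ≠ 0 → (∀ v ∈ Z, w ⬝ᵥ v = 0) →
      ∃ N : ℝ, 0 < N ∧ N * N = w ⬝ᵥ w ∧ (fun i => N⁻¹ * w i) ∈ K ∧
        eval w u = N ^ 4 * eval (fun i => N⁻¹ * w i) u := by
    intro w hw1 hw2
    have hw0 : w ≠ 0 := by
      rintro rfl
      exact hw1 h0
    obtain ⟨N, hN, hNN, hN1⟩ := normalize hw0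
    refine ⟨N, hN, hNN, (hKmem _).2 ⟨hN1, fun v hv => ?_⟩, ?_⟩
    · have h1 : (fun i => N⁻¹ * w i) = N⁻¹ • w := rfl
      rw [h1, smul_dotProduct, hw2 v hv, smul_zero]
    · rw [← eval_scale h N]
      congr 1
      congr 1
      funext i
      field_simp
  obtain ⟨w, hw1, hw2, -⟩ := hdecomp z
  have hKne : K.Nonempty := by
    obtain ⟨N, -, -, h1, -⟩ := hnorm w (by rw [hw1]; exact hne) hw2
    exact ⟨_, h1⟩
  obtain ⟨x, hx, hxmin⟩ := hKc.exists_isMinOn hKne (f := fun y => eval y u)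
    (continuous_eval u).continuousOn
  obtain ⟨hx1, hx2⟩ := (hKmem x).1 hx
  have hc : 0 < eval x u := by
    refine lt_of_le_of_ne (hpos x) (fun h1 => ?_)
    have h2 := hx2 x h1.symm
    rw [hx1] at h2
    exact one_ne_zero h2
  have hline : ∀ y, x ⬝ᵥ y = 0 → ∀ t : ℝ, eval x u ≤ eval (fun i => x i + y i * t) u := by
    intro y hy t
    obtain ⟨w, hw1, hw2, hw3⟩ := hdecomp (fun i => x i + y i * t)
    have h1 : x ⬝ᵥ w = 1 := by
      rw [hw3 x hx2]
      have : (fun i => x i + y i * t) = x + t • y := by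
        funext i
        simp [mul_comm]
      rw [this, dotProduct_add, dotProduct_smul, hx1, hy]
      simp
    have h2 : 1 ≤ w ⬝ᵥ w := by
      have := dot_self_nonneg (w - x)
      rw [sub_dotProduct, dotProduct_sub, dotProduct_sub, hx1, dotProduct_comm w x, h1] at this
      linarith
    have hw0 : eval w u ≠ 0 := by
      intro h3
      have h4 := hw2 w h3
      linarith
    obtain ⟨N, hN, hNN, hN1, hN2⟩ := hnorm w hw0 hw2
    have h3 : eval x u ≤ eval (fun i => N⁻¹ * w i) u := hxmin hN1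
    rw [← hw1, hN2]
    have hN4 : 1 ≤ N ^ 4 := by
      have : N ^ 4 = (N * N) * (N * N) := by ring
      rw [this, hNN]
      nlinarith
    nlinarith
  have hml : ∀ y, x ⬝ᵥ y = 0 → eval x (D y u) = 0 ∧ 0 ≤ eval x (D y (D y u)) :=
    fun y hy => min_line h x y (hline y hy)
  have hg := prop_of_orth (g := fun i => eval x (pderiv i u)) hx1 (by
    intro y hy
    have := (hml y hy).1
    rw [eval_D] at this
    exact this)
  have hl : x ⬝ᵥ (fun i => eval x (pderiv i u)) = 4 * eval x u := by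
    have := euler h x
    rw [dotProduct, this]
    norm_num
  rw [hl] at hg
  exact contr (by norm_num) h hs hL (by linarith : 0 < 4 * eval x u) hx1 hg (fun y hy => by
    rw [k1_eq]
    exact (hml y hy).2)

/-- gradient at a maximum point -/
theorem grad {u : MvPolynomial (Fin n) ℝ} {m : ℕ} (h : u.IsHomogeneous m) {x : Fin n → ℝ} {U : ℝ}
    (hx : x ⬝ᵥ x = 1) (hU : eval x u = U)
    (hmax : ∀ y : Fin n → ℝ, y ⬝ᵥ y = 1 → eval y u ≤ U) (i : Fin n) :
    eval x (pderiv i u) = m * U * x i := by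
  have horth : ∀ τ : Fin n → ℝ, τ ⬝ᵥ τ = 1 → x ⬝ᵥ τ = 0 →
      ∑ i, τ i * eval x (pderiv i u) = 0 := by
    intro τ h1 h2
    obtain ⟨f1, hf1, hf2, -⟩ := circle_deriv u x τ
    rw [← hf2]
    apply IsLocalMax.hasDerivAt_eq_zero (f := fun θ => eval (cp x τ θ) u) _ (hf1 0)
    apply Filter.Eventually.of_forall
    intro θ
    have e0 : cp x τ 0 = x := by
      funext i
      simp [cp]
    have e1 : cp x τ θ ⬝ᵥ cp x τ θ = 1 := by
      have : cp x τ θ = Real.cos θ • x + Real.sin θ • τ := by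
        funext i
        simp [cp]
      rw [this]
      simp only [add_dotProduct, dotProduct_add, smul_dotProduct, dotProduct_smul, smul_eq_mul,
        hx, h1, h2, dotProduct_comm τ x]
      have := Real.sin_sq_add_cos_sq θ
      nlinarith
    have := hmax _ e1
    simp only [e0, hU]
    exact this
  have hg := prop_of_orth (g := fun i => eval x (pderiv i u)) hx (by
    intro y hy
    by_cases hy0 : y = 0
    · rw [hy0, zero_dotProduct]
    · obtain ⟨N, hN, hNN, hN1⟩ := normalize hy0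
      have h1 : (fun i => N⁻¹ * y i) = N⁻¹ • y := rfl
      have h2 := horth _ hN1 (by rw [h1, dotProduct_smul, hy, smul_zero])
      have h3 : N⁻¹ * (y ⬝ᵥ fun i => eval x (pderiv i u)) = 0 := by
        rw [← h2, dotProduct, mul_sum]
        refine sum_congr rfl (fun i _ => ?_)
        ring
      rcases mul_eq_zero.1 h3 with h4 | h4
      · exact absurd h4 (inv_ne_zero hN.ne')
      · exact h4)
  have hl : x ⬝ᵥ (fun i => eval x (pderiv i u)) = m * U := by
    have := euler h x
    rw [dotProduct, this, hU]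
  rw [hl] at hg
  exact hg i

/-- a positive critical value -/
theorem exists_max {u : MvPolynomial (Fin n) ℝ} {m : ℕ} (hm : m ≠ 0) (h : u.IsHomogeneous m)
    (hp : ∃ a, 0 < eval a u) : ∃ (x : Fin n → ℝ) (l : ℝ), 0 < l ∧ x ⬝ᵥ x = 1 ∧
      ∀ i, eval x (pderiv i u) = l * x i := by
  obtain ⟨a, ha⟩ := hp
  have ha0 : a ≠ 0 := by
    rintro rfl
    rw [eval_zero' hm h] at ha
    exact lt_irrefl _ ha
  obtain ⟨N, hN, hNN, hN1⟩ := normalize ha0
  obtain ⟨x, hx, hxmax⟩ := sphere_compact.exists_isMaxOn ⟨_, hN1⟩ (f := fun y => eval y u)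
    (continuous_eval u).continuousOn
  have h1 : eval a u = N ^ m * eval (fun i => N⁻¹ * a i) u := by
    rw [← eval_scale h N]
    congr 1
    congr 1
    funext i
    field_simp
  have h2 : 0 < eval (fun i => N⁻¹ * a i) u := by
    rw [h1] at ha
    exact (pos_iff_pos_of_mul_pos ha).1 (pow_pos hN m)
  have h3 : eval (fun i => N⁻¹ * a i) u ≤ eval x u := hxmax hN1
  refine ⟨x, m * eval x u, ?_, hx, grad h hx rfl (fun y hy => hxmax hy)⟩
  have : (0 : ℝ) < m := by exact_mod_cast Nat.pos_of_ne_zero hm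
  have := lt_of_lt_of_le h2 h3
  positivity

theorem Lg_neg (s : ℝ) (u : MvPolynomial (Fin n) ℝ) : Lg s (-u) = - Lg s u := by
  unfold Lg
  simp only [map_neg, neg_sq, sum_neg_distrib, mul_neg, neg_mul, neg_neg]
  ring

/-- no homogeneous solution of degree two, three or four -/
theorem homog4 {u : MvPolynomial (Fin n) ℝ} {m : ℕ} (hm : m = 2 ∨ m = 3 ∨ m = 4)
    (h : u.IsHomogeneous m) {s : ℝ} (hs : -1 < s) (hs0 : s ≠ 0) (hL : Lg s u = 0) : u = 0 := by
  by_contra hu
  have hLn : Lg s (-u) = 0 := by rw [Lg_neg, hL, neg_zero]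
  have hn : (-u).IsHomogeneous m := h.neg
  have hex : ∃ a, eval a u ≠ 0 := by
    by_contra hcon
    push Not at hcon
    apply hu
    apply MvPolynomial.funext
    intro y
    rw [hcon y, map_zero]
  have hm0 : m ≠ 0 := by omega
  by_cases h4 : m = 4
  · subst h4
    have hp1 : ∃ a, 0 < eval a u := by
      by_contra hcon
      push Not at hcon
      obtain ⟨a, ha⟩ := hex
      have := nonneg_zero hn hs hLn (fun z => by rw [map_neg]; linarith [hcon z]) a
      rw [map_neg, neg_eq_zero] at this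
      exact ha this
    have hp2 : ∃ a, 0 < eval a (-u) := by
      by_contra hcon
      push Not at hcon
      obtain ⟨a, ha⟩ := hex
      have := nonneg_zero h hs hL (fun z => by
        have := hcon z
        rw [map_neg] at this
        linarith) a
      exact ha this
    obtain ⟨x, l, hl, hx, hg⟩ := exists_max hm0 h hp1
    obtain ⟨x', l', hl', hx', hg'⟩ := exists_max hm0 hn hp2
    refine quartic h hs0 hL (x := x) (x' := x') (l := l) (l' := -l') hl (by linarith) hx hx' hg ?_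
    intro i
    have := hg' i
    rw [map_neg, map_neg] at this
    linarith
  · have hm' : m = 2 ∨ m = 3 := by omega
    obtain ⟨a, ha⟩ := hex
    rcases lt_or_gt_of_ne ha with h1 | h1
    · obtain ⟨x, l, hl, hx, hg⟩ := exists_max hm0 hn ⟨a, by rw [map_neg]; linarith⟩
      exact low_degree hm' hn hs hs0 hLn hl hx hg
    · obtain ⟨x, l, hl, hx, hg⟩ := exists_max hm0 h ⟨a, h1⟩
      exact low_degree hm' h hs hs0 hL hl hx hg

/-- Every polynomial solution of the `p`-Laplace equation of degree at most four has degree at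
most one. -/
theorem main (n : ℕ) (p : ℝ) (hp : 1 < p) (hp2 : p ≠ 2) (u : MvPolynomial (Fin n) ℝ)
    (hdeg : u.totalDegree ≤ 4)
    (h : ∀ x : Fin n → ℝ,
          (∑ i, (MvPolynomial.eval x (MvPolynomial.pderiv i u)) ^ 2) *
              (∑ i, MvPolynomial.eval x (MvPolynomial.pderiv i (MvPolynomial.pderiv i u))) +
            (p - 2) * ∑ i, ∑ j,
              MvPolynomial.eval x (MvPolynomial.pderiv i u) *
                MvPolynomial.eval x (MvPolynomial.pderiv j u) *
                MvPolynomial.eval x (MvPolynomial.pderiv i (MvPolynomial.pderiv j u)) = 0) :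
    u.totalDegree ≤ 1 := by
  by_contra hcon
  obtain ⟨k, hk⟩ : ∃ k, u.totalDegree = k + 2 := ⟨u.totalDegree - 2, by omega⟩
  have hL : Lg (p - 2) u = 0 := by
    apply MvPolynomial.funext
    intro x
    rw [eval_Lg, map_zero]
    exact h x
  have hu0 : homogeneousComponent (k + 2) u ≠ 0 := by
    intro h0
    have hne : u.support.Nonempty := by
      rw [support_nonempty]
      intro hz
      rw [hz, totalDegree_zero] at hk
      omega
    obtain ⟨e, he, hemax⟩ := Finset.exists_mem_eq_sup u.support hne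
      (fun s => s.sum fun _ e => e)
    have hd : Finsupp.degree e = k + 2 := by
      rw [← hk]
      exact hemax.symm
    have := congrArg (coeff e) h0
    rw [coeff_homogeneousComponent, if_pos hd, coeff_zero] at this
    exact (mem_support_iff.mp he) this
  apply hu0
  apply homog4 (m := k + 2) (by omega) (homogeneousComponent_isHomogeneous _ _)
    (by linarith : -1 < p - 2) (sub_ne_zero.2 hp2)
  exact Pool.Agent.H476R2.PL.top_part (p - 2) k u hk.le hL

end Pool.Agent.Helper45.PL4
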