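import Pool.Agent.Helper45.PL4.Quart

/-!
# A nonnegative quartic solution vanishes
-/

set_option autoImplicit false
set_option linter.unusedSectionVars false
set_option linter.unusedVariables false

namespace Pool.Agent.Helper45.PL4

open MvPolynomial Finset Matrix
open Pool.Agent.H476R2.PL (Lp Lg eval_Lg euler eval_scale hom_pderiv)

variable {n : ℕ}

/-- restriction to a line -/
noncomputable def L (x y : Fin n → ℝ) : MvPolynomial (Fin n) ℝ →ₐ[ℝ] Polynomial ℝ :=
  aeval (fun i => Polynomial.C (x i) + Polynomial.C (y i) * Polynomial.X)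

theorem L_X (x y : Fin n → ℝ) (i : Fin n) :
    L x y (X i) = Polynomial.C (x i) + Polynomial.C (y i) * Polynomial.X := by
  unfold L
  rw [aeval_X]

theorem L_C (x y : Fin n → ℝ) (a : ℝ) : L x y (C a) = Polynomial.C a := by
  unfold L
  rw [aeval_C, Polynomial.algebraMap_eq]

theorem eval_L (x y : Fin n → ℝ) (t : ℝ) (u : MvPolynomial (Fin n) ℝ) :
    (L x y u).eval t = eval (fun i => x i + y i * t) u := by
  induction u using MvPolynomial.induction_on with
  | C a => rw [L_C, Polynomial.eval_C, eval_C]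
  | add p q hp hq => rw [map_add, map_add, Polynomial.eval_add, hp, hq]
  | mul_X p i hp =>
    rw [map_mul, map_mul, Polynomial.eval_mul, hp, L_X, eval_X]
    simp

theorem D_X (y : Fin n → ℝ) (i : Fin n) : D y (X i) = C (y i) := by
  unfold D
  rw [sum_eq_single i]
  · rw [pderiv_X_self, mul_one]
  · intro j _ hj
    rw [pderiv_X_of_ne (Ne.symm hj), mul_zero]
  · intro h
    exact absurd (mem_univ i) h

theorem deriv_L (x y : Fin n → ℝ) (u : MvPolynomial (Fin n) ℝ) :
    Polynomial.derivative (L x y u) = L x y (D y u) := by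
  induction u using MvPolynomial.induction_on with
  | C a => rw [L_C, D_C, map_zero, Polynomial.derivative_C]
  | add p q hp hq => rw [map_add, Polynomial.derivative_add, hp, hq, D_add, map_add]
  | mul_X p i hp =>
    rw [map_mul, Polynomial.derivative_mul, hp, D_mul, map_add, map_mul, map_mul, L_X, D_X, L_C]
    simp

theorem coeff_L (x y : Fin n → ℝ) (u : MvPolynomial (Fin n) ℝ) (k : ℕ) :
    (L x y u).coeff (k + 1) * ((k : ℝ) + 1) = (L x y (D y u)).coeff k := by
  rw [← deriv_L, Polynomial.coeff_derivative]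

theorem coeff0_L (x y : Fin n → ℝ) (u : MvPolynomial (Fin n) ℝ) :
    (L x y u).coeff 0 = eval x u := by
  rw [Polynomial.coeff_zero_eq_eval_zero, eval_L]
  congr 1
  simp

/-- Taylor expansion of a quartic form -/
theorem taylor {u : MvPolynomial (Fin n) ℝ} (h : u.IsHomogeneous 4) (x y : Fin n → ℝ) :
    ∃ c : ℝ, ∀ t : ℝ, eval (fun i => x i + y i * t) u =
      eval x u + eval x (D y u) * t + eval x (D y (D y u)) / 2 * t ^ 2 + c * t ^ 3 +
        eval y u * t ^ 4 := by
  refine ⟨(L x y u).coeff 3, fun t => ?_⟩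
  have hdeg : (L x y u).natDegree ≤ 4 * 1 := by
    apply aeval_natDegree_le u h.totalDegree_le
    intro i
    refine (Polynomial.natDegree_add_le _ _).trans ?_
    rw [max_le_iff]
    constructor
    · rw [Polynomial.natDegree_C]; omega
    · exact (Polynomial.natDegree_C_mul_le _ _).trans Polynomial.natDegree_X_le
  rw [← eval_L, Polynomial.eval_eq_sum_range' (n := 5) (by omega)]
  simp only [sum_range_succ, range_zero, sum_empty, zero_add, pow_zero, mul_one, pow_one]
  have c0 := coeff0_L x y u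
  have c1 := coeff_L x y u 0
  have c2 := coeff_L x y u 1
  have c21 := coeff_L x y (D y u) 0
  have c4 := coeff_L x y u 3
  have c43 := coeff_L x y (D y u) 2
  have c42 := coeff_L x y (D y (D y u)) 1
  have c41 := coeff_L x y (D y (D y (D y u))) 0
  rw [coeff0_L] at c1 c21 c41
  have h4 : eval x (D y (D y (D y (D y u)))) = 24 * eval y u := by
    have h0 := D_hom y (D_hom y (D_hom y (D_hom y h)))
    rw [hom_zero h0 x y, eulerD y (D_hom y (D_hom y (D_hom y h))), eulerD y (D_hom y (D_hom y h)),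
      eulerD y (D_hom y h), eulerD y h]
    norm_num
    ring
  norm_num at c1 c2 c21 c4 c43 c42 c41
  rw [h4] at c41
  have d2 : (L x y u).coeff 2 = eval x (D y (D y u)) / 2 := by linarith
  have d4 : (L x y u).coeff 4 = eval y u := by linarith
  rw [c0, c1, d2, d4]

/-- coefficients of a polynomial nonnegative on the line and vanishing at the origin -/
theorem nonneg_coeff {c1 c2 c3 c4 : ℝ}
    (h : ∀ t : ℝ, 0 ≤ c1 * t + c2 * t ^ 2 + c3 * t ^ 3 + c4 * t ^ 4) : c1 = 0 ∧ 0 ≤ c2 := by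
  set K := |c2| + |c3| + |c4| + 1 with hK
  have hK0 : 0 < K := by positivity
  have key : ∀ t : ℝ, |t| ≤ 1 → c2 * t ^ 2 + c3 * t ^ 3 + c4 * t ^ 4 ≤ K * t ^ 2 := by
    intro t ht
    have ht2 : 0 ≤ t ^ 2 := sq_nonneg t
    have a1 : c2 * t ^ 2 ≤ |c2| * t ^ 2 := mul_le_mul_of_nonneg_right (le_abs_self _) ht2
    have a2 : c3 * t ^ 3 ≤ |c3| * t ^ 2 := by
      have b1 : c3 * t ^ 3 ≤ |c3 * t ^ 3| := le_abs_self _
      have b2 : |c3 * t ^ 3| = |c3| * |t| * t ^ 2 := by
        rw [abs_mul, abs_pow, pow_succ, sq_abs]; ring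
      have b3 : |c3| * |t| * t ^ 2 ≤ |c3| * 1 * t ^ 2 :=
        mul_le_mul_of_nonneg_right (mul_le_mul_of_nonneg_left ht (abs_nonneg _)) ht2
      linarith
    have a3 : c4 * t ^ 4 ≤ |c4| * t ^ 2 := by
      have b1 : c4 * t ^ 4 ≤ |c4| * t ^ 4 := mul_le_mul_of_nonneg_right (le_abs_self _) (by positivity)
      have b2 : t ^ 2 ≤ 1 := by
        rw [← sq_abs]
        have := abs_nonneg t
        nlinarith
      have b3 : |c4| * t ^ 4 ≤ |c4| * t ^ 2 := by
        apply mul_le_mul_of_nonneg_left _ (abs_nonneg _)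
        nlinarith
      linarith
    nlinarith
  have h1 : ∀ r : ℝ, 0 < r → r ≤ 1 → -(K * r) ≤ c1 ∧ -(K * r) ≤ -c1 := by
    intro r hr hr1
    have a1 := h r
    have a2 := h (-r)
    have k1 := key r (by rw [abs_of_pos hr]; exact hr1)
    have k2 := key (-r) (by rw [abs_neg, abs_of_pos hr]; exact hr1)
    constructor
    · have : 0 ≤ r * (c1 + K * r) := by nlinarith
      have := nonneg_of_mul_nonneg_right this hr
      linarith
    · have : 0 ≤ r * (-c1 + K * r) := by nlinarith
      have := nonneg_of_mul_nonneg_right this hr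
      linarith
  have hc1 : c1 = 0 := by
    by_contra hne
    have hpos : 0 < |c1| := abs_pos.2 hne
    have hr : 0 < min 1 (|c1| / (2 * K)) := lt_min one_pos (by positivity)
    obtain ⟨b1, b2⟩ := h1 _ hr (min_le_left _ _)
    have b3 : K * min 1 (|c1| / (2 * K)) ≤ |c1| / 2 := by
      calc K * min 1 (|c1| / (2 * K)) ≤ K * (|c1| / (2 * K)) :=
            mul_le_mul_of_nonneg_left (min_le_right _ _) hK0.le
        _ = |c1| / 2 := by field_simp
    have b4 : |c1| ≤ |c1| / 2 := by
      rw [abs_le']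
      constructor <;> linarith
    linarith
  refine ⟨hc1, ?_⟩
  by_contra hneg
  push Not at hneg
  rw [hc1] at h
  set K' := |c3| + |c4| + 1 with hK'
  have hK'0 : 0 < K' := by positivity
  set r := min 1 (-c2 / (2 * K')) with hrdef
  have hr : 0 < r := lt_min one_pos (div_pos (by linarith) (by positivity))
  have hr1 : r ≤ 1 := min_le_left _ _
  have a1 := h r
  have b1 : c3 * r ≤ |c3| * r := mul_le_mul_of_nonneg_right (le_abs_self _) hr.le
  have b2 : c4 * r ^ 2 ≤ |c4| * r := by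
    have : c4 * r ^ 2 ≤ |c4| * r ^ 2 := mul_le_mul_of_nonneg_right (le_abs_self _) (by positivity)
    have : |c4| * r ^ 2 ≤ |c4| * r := mul_le_mul_of_nonneg_left (by nlinarith) (abs_nonneg _)
    linarith
  have b3 : K' * r ≤ -c2 / 2 := by
    calc K' * r ≤ K' * (-c2 / (2 * K')) := mul_le_mul_of_nonneg_left (min_le_right _ _) hK'0.le
      _ = -c2 / 2 := by field_simp
  have b4 : c2 + c3 * r + c4 * r ^ 2 < 0 := by nlinarith
  have b5 : 0 * r + c2 * r ^ 2 + c3 * r ^ 3 + c4 * r ^ 4 = r ^ 2 * (c2 + c3 * r + c4 * r ^ 2) := by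
    ring
  rw [b5] at a1
  have := mul_neg_of_pos_of_neg (pow_pos hr 2) b4
  linarith

/-- first and second order conditions at a point which is minimal on a line -/
theorem min_line {u : MvPolynomial (Fin n) ℝ} (h : u.IsHomogeneous 4) (x y : Fin n → ℝ)
    (hmin : ∀ t : ℝ, eval x u ≤ eval (fun i => x i + y i * t) u) :
    eval x (D y u) = 0 ∧ 0 ≤ eval x (D y (D y u)) := by
  obtain ⟨c, hc⟩ := taylor h x y
  have h1 := nonneg_coeff (c1 := eval x (D y u)) (c2 := eval x (D y (D y u)) / 2) (c3 := c)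
    (c4 := eval y u) (by
      intro t
      have := hmin t
      rw [hc t] at this
      linarith)
  refine ⟨h1.1, ?_⟩
  linarith [h1.2]

/-- the gradient vanishes -/
theorem grad_zero {u : MvPolynomial (Fin n) ℝ} {x : Fin n → ℝ}
    (h : ∀ y, eval x (D y u) = 0) (i : Fin n) : eval x (pderiv i u) = 0 := by
  have h1 := h (Pi.single i 1)
  rw [eval_D, sum_eq_single i] at h1
  · simpa using h1
  · intro j _ hj
    rw [Pi.single_eq_of_ne hj, zero_mul]
  · intro h'
    exact absurd (mem_univ i) h'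

/-- at a zero of a nonnegative quartic solution the Hessian vanishes -/
theorem zero_hess {u : MvPolynomial (Fin n) ℝ} (h : u.IsHomogeneous 4) {s : ℝ} (hs : -1 < s)
    (hL : Lg s u = 0) (hpos : ∀ z, 0 ≤ eval z u) {z : Fin n → ℝ} (hz : eval z u = 0)
    (y : Fin n → ℝ) : eval z (D y u) = 0 ∧ eval z (D y (D y u)) = 0 := by
  have hml : ∀ y, eval z (D y u) = 0 ∧ 0 ≤ eval z (D y (D y u)) := fun y =>
    min_line h z y (fun t => by rw [hz]; exact hpos _)
  refine ⟨(hml y).1, ?_⟩
  have hg := grad_zero (fun y => (hml y).1)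
  have hH := Hs_transpose u z
  have hpsd : ∀ y, 0 ≤ y ⬝ᵥ (Hs u z *ᵥ y) := by
    intro y
    rw [k1_eq]
    exact (hml y).2
  have h1 := dd_expand s u hL z y
  simp only [hg, zero_mul, mul_zero, sum_const_zero, add_zero] at h1
  have e5 : ∑ i, eval z (D y (pderiv i u)) ^ 2 = (Hs u z *ᵥ y) ⬝ᵥ (Hs u z *ᵥ y) := by
    rw [dotProduct]
    refine sum_congr rfl (fun i _ => ?_)
    rw [Hs_mulVec]
    ring
  have e7 : ∑ i, ∑ j, eval z (D y (pderiv i u)) * eval z (D y (pderiv j u)) *
      eval z (pderiv i (pderiv j u)) = (Hs u z *ᵥ y) ⬝ᵥ (Hs u z *ᵥ (Hs u z *ᵥ y)) := by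
    rw [dotProduct]
    refine sum_congr rfl (fun i _ => ?_)
    rw [Hs_mulVec, Hs_mulVec, eval_D z (Hs u z *ᵥ y), mul_sum]
    refine sum_congr rfl (fun j _ => ?_)
    rw [Hs_mulVec, pderiv_comm]
    ring
  simp only [e5, e7, ← trace_Hs, ne_eq, OfNat.ofNat_ne_zero, not_false_eq_true, zero_pow,
    sum_const_zero, zero_mul, add_zero, zero_add] at h1
  have hk3 := hpsd (Hs u z *ᵥ y)
  have hk3' := psd_trace (Hs u z) hH hpsd (Hs u z *ᵥ y)
  have hk2 := dot_self_nonneg (Hs u z *ᵥ y)
  rw [← k1_eq]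
  generalize (Hs u z *ᵥ y) ⬝ᵥ (Hs u z *ᵥ (Hs u z *ᵥ y)) = k3 at *
  have h30 : k3 = 0 := by
    by_contra hne
    have : 0 < k3 := lt_of_le_of_ne hk3 (Ne.symm hne)
    nlinarith
  rw [h30] at h1
  have h2 : (Hs u z *ᵥ y) ⬝ᵥ (Hs u z *ᵥ y) * (Hs u z).trace = 0 := by linarith
  rcases mul_eq_zero.1 h2 with h3 | h3
  · rw [dot_self_zero h3, dotProduct_zero]
  · have h4 := psd_trace (Hs u z) hH hpsd y
    rw [h3, zero_mul] at h4
    exact le_antisymm h4 (hpsd y)

/-- zeros are null directions -/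
theorem null_dir {u : MvPolynomial (Fin n) ℝ} (h : u.IsHomogeneous 4) {s : ℝ} (hs : -1 < s)
    (hL : Lg s u = 0) (hpos : ∀ z, 0 ≤ eval z u) {z : Fin n → ℝ} (hz : eval z u = 0)
    (y : Fin n → ℝ) : eval (fun i => z i + y i) u = eval y u := by
  obtain ⟨c, hc⟩ := taylor h z y
  obtain ⟨h1, h2⟩ := zero_hess h hs hL hpos hz y
  rw [hz, h1, h2] at hc
  have hc0 : c = 0 := by
    have h3 := nonneg_coeff (c1 := c) (c2 := eval y u) (c3 := 0) (c4 := 0) (by
      intro t
      by_cases ht : t = 0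
      · rw [ht]; simp
      · have h4 := hpos (fun i => z i + y i * t)
        rw [hc t] at h4
        have h5 : 0 ≤ t ^ 2 * (c * t + eval y u * t ^ 2 + 0 * t ^ 3 + 0 * t ^ 4) := by
          linarith
        exact nonneg_of_mul_nonneg_right h5 (by positivity))
    exact h3.1
  have h5 := hc 1
  rw [hc0] at h5
  simp only [mul_one] at h5
  rw [h5]
  ring

end Pool.Agent.Helper45.PL4
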