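import Pool.Agent.Helper45.PL4.Lin

/-!
# Quartic forms: a positive and a negative critical value
-/

set_option autoImplicit false
set_option linter.unusedSectionVars false
set_option linter.unusedVariables false

namespace Pool.Agent.Helper45.PL4

open MvPolynomial Finset Matrix
open Pool.Agent.H476R2.PL (Lp Lg eval_Lg euler eval_scale hom_pderiv)

variable {n : ℕ}

theorem HsW {W : MvPolynomial (Fin n) ℝ} (h : W.IsHomogeneous 2) (x : Fin n → ℝ) :
    Hs W x = Hs W 0 := by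
  ext i j
  rw [Hs_apply, Hs_apply]
  exact hom_zero ((h.pderiv (i := j)).pderiv (i := i)) _ _

theorem BW {W : MvPolynomial (Fin n) ℝ} (h : W.IsHomogeneous 2) (x : Fin n → ℝ) (i : Fin n) :
    (Hs W 0 *ᵥ x) i = eval x (pderiv i W) := by
  have h1 := hess_x h x i
  norm_num at h1
  rw [← h1, ← HsW h x, mulVec, dotProduct]
  refine sum_congr rfl (fun j _ => ?_)
  rw [Hs_apply, mul_comm]

theorem BW2 {W : MvPolynomial (Fin n) ℝ} (h : W.IsHomogeneous 2) (x y : Fin n → ℝ) :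
    y ⬝ᵥ (Hs W 0 *ᵥ x) = eval x (D y W) := by
  rw [eval_D, dotProduct]
  refine sum_congr rfl (fun i _ => ?_)
  rw [BW h]

theorem BW3 {W : MvPolynomial (Fin n) ℝ} (h : W.IsHomogeneous 2) (x y : Fin n → ℝ) :
    y ⬝ᵥ (Hs W 0 *ᵥ y) = eval x (D y (D y W)) := by
  rw [← k1_eq, HsW h x]

/-- the critical points are eigenvectors of the Laplacian -/
theorem B_eig {u : MvPolynomial (Fin n) ℝ} (h : u.IsHomogeneous 4) {s : ℝ} (hL : Lg s u = 0)
    {x : Fin n → ℝ} {l : ℝ} (hl : l ≠ 0) (hx : x ⬝ᵥ x = 1)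
    (hg : ∀ i, eval x (pderiv i u) = l * x i) :
    Hs (Lap u) 0 *ᵥ x = (-(6 * s * l)) • x := by
  have hW : (Lap u).IsHomogeneous 2 := Lap_hom h
  have h0 := crit0 h hL hl hx hg
  norm_num at h0
  have h1 : x ⬝ᵥ (Hs (Lap u) 0 *ᵥ x) = -(6 * s * l) := by
    rw [BW2 hW, eulerD x hW, h0]
    push_cast
    ring
  have h2 : x ⬝ᵥ (Hs (Lap u) 0 *ᵥ x - (-(6 * s * l)) • x) = 0 := by
    rw [dotProduct_sub, dotProduct_smul, hx, h1]
    simp
  have h3 := crit1 h hL hl hx hg h2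
  rw [← BW2 hW] at h3
  have h4 : (Hs (Lap u) 0 *ᵥ x - (-(6 * s * l)) • x) ⬝ᵥ
      (Hs (Lap u) 0 *ᵥ x - (-(6 * s * l)) • x) = 0 := by
    rw [dotProduct_sub, h3, dotProduct_smul, dotProduct_comm _ x, h2, smul_zero, sub_zero]
  exact sub_eq_zero.1 (dot_self_zero h4)

/-- the cubic relation on the orthogonal complement -/
theorem cubic {u : MvPolynomial (Fin n) ℝ} (h : u.IsHomogeneous 4) {s : ℝ} (hs0 : s ≠ 0)
    (hL : Lg s u = 0) {x : Fin n → ℝ} {l : ℝ} (hl : l ≠ 0) (hx : x ⬝ᵥ x = 1)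
    (hg : ∀ i, eval x (pderiv i u) = l * x i) {y : Fin n → ℝ} (hxy : x ⬝ᵥ y = 0) {β : ℝ}
    (hy : Hs (Lap u) 0 *ᵥ y = (-(6 * s * β)) • y) :
    Hs u x *ᵥ (Hs u x *ᵥ (Hs u x *ᵥ y)) + l • (Hs u x *ᵥ (Hs u x *ᵥ y)) +
      l ^ 2 • (Hs u x *ᵥ y) = (3 * l ^ 2 * β) • y := by
  have hH := Hs_transpose u x
  have hBs := Hs_transpose (Lap u) 0
  have hW : (Lap u).IsHomogeneous 2 := Lap_hom h
  have hBx := B_eig h hL hl hx hg
  have hHx := Hs_x h hg
  have hq : ∀ z, x ⬝ᵥ z = 0 → l ^ 2 * (z ⬝ᵥ (Hs (Lap u) 0 *ᵥ z)) =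
      -(s * (2 * ((Hs u x *ᵥ z) ⬝ᵥ (Hs u x *ᵥ (Hs u x *ᵥ z))) +
        2 * l * ((Hs u x *ᵥ z) ⬝ᵥ (Hs u x *ᵥ z)) + 2 * l ^ 2 * (z ⬝ᵥ (Hs u x *ᵥ z)))) := by
    intro z hz
    have h1 := crit2 h hL hl hx hg hz
    rw [← BW3 hW] at h1
    rw [h1]
    norm_num
  set H := Hs u x with hHdef
  set B := Hs (Lap u) 0 with hBdef
  have hC := pol (H * (H * H) + l • (H * H) + l ^ 2 • H + (l ^ 2 / (2 * s)) • B)
    (by rw [transpose_add, transpose_add, transpose_add, transpose_smul, transpose_smul,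
      transpose_smul, tr_pow2 H hH, tr_pow3 H hH, hH, hBs])
    (x := x) (γ := (((4 - 1 : ℕ) : ℝ) * l) ^ 3 + l * (((4 - 1 : ℕ) : ℝ) * l) ^ 2 +
      l ^ 2 * (((4 - 1 : ℕ) : ℝ) * l) + (l ^ 2 / (2 * s)) * (-(6 * s * l))) (by
      rw [add_mulVec, add_mulVec, add_mulVec, smul_mulVec, smul_mulVec, smul_mulVec,
        ← mulVec_mulVec, ← mulVec_mulVec]
      simp only [mulVec_smul, hHx, hBx, smul_smul, ← add_smul]
      congr 1
      ring) (by
      intro z hz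
      have h3 := hq z hz
      rw [add_mulVec, add_mulVec, add_mulVec, smul_mulVec, smul_mulVec, smul_mulVec,
        ← mulVec_mulVec, ← mulVec_mulVec]
      simp only [dotProduct_add, dotProduct_smul, smul_eq_mul]
      rw [← move H hH z (H *ᵥ (H *ᵥ z)), ← move H hH z (H *ᵥ z)]
      have h4 : l ^ 2 / (2 * s) * (z ⬝ᵥ (B *ᵥ z)) = (l ^ 2 * (z ⬝ᵥ (B *ᵥ z))) / (2 * s) := by ring
      rw [h4, h3]
      field_simp
      ring) y hxy
  rw [add_mulVec, add_mulVec, add_mulVec, smul_mulVec, smul_mulVec, smul_mulVec,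
    ← mulVec_mulVec, ← mulVec_mulVec, hy] at hC
  have h5 : (l ^ 2 / (2 * s)) • (-(6 * s * β)) • y = (-(3 * l ^ 2 * β)) • y := by
    rw [smul_smul]
    congr 1
    field_simp
    ring
  rw [h5, neg_smul] at hC
  exact add_neg_eq_zero.1 hC

theorem mix {u : MvPolynomial (Fin n) ℝ} (h : u.IsHomogeneous 4) (x y : Fin n → ℝ) :
    eval x (D y (D y u)) = eval y (D x (D x u)) := by
  have h1 : (D y (D y u)).IsHomogeneous 2 := D_hom y (D_hom y h)
  have h2 : (D x (D x u)).IsHomogeneous 2 := D_hom x (D_hom x h)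
  have a1 : eval x (D x (D x (D y (D y u)))) = 2 * eval x (D y (D y u)) := by
    rw [eulerD x (D_hom x h1), eulerD x h1]
    norm_num
  have a2 : eval y (D y (D y (D x (D x u)))) = 2 * eval y (D x (D x u)) := by
    rw [eulerD y (D_hom y h2), eulerD y h2]
    norm_num
  have a3 : D x (D x (D y (D y u))) = D y (D y (D x (D x u))) := by
    rw [D_comm x y (D y u), D_comm x y u, D_comm x y (D y (D x u)), D_comm x y (D x u)]
  have a4 := hom_zero (D_hom y (D_hom y h2)) x y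
  rw [a3, a4, a2] at a1
  linarith

/-- no quartic solution has a positive and a negative critical value -/
theorem quartic {u : MvPolynomial (Fin n) ℝ} (h : u.IsHomogeneous 4) {s : ℝ} (hs0 : s ≠ 0)
    (hL : Lg s u = 0) {x x' : Fin n → ℝ} {l l' : ℝ} (hl : 0 < l) (hl' : l' < 0)
    (hx : x ⬝ᵥ x = 1) (hx' : x' ⬝ᵥ x' = 1) (hg : ∀ i, eval x (pderiv i u) = l * x i)
    (hg' : ∀ i, eval x' (pderiv i u) = l' * x' i) : False := by
  have hB := B_eig h hL hl.ne' hx hg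
  have hB' := B_eig h hL hl'.ne hx' hg'
  have hBs := Hs_transpose (Lap u) 0
  have horth : x ⬝ᵥ x' = 0 := by
    have h1 := move _ hBs x x'
    rw [hB, hB', smul_dotProduct, dotProduct_smul, smul_eq_mul, smul_eq_mul] at h1
    have h2 : (6 * s * (l - l')) * (x ⬝ᵥ x') = 0 := by linarith
    rcases mul_eq_zero.1 h2 with h3 | h3
    · exfalso
      have h4 : l - l' ≠ 0 := by linarith
      exact (mul_ne_zero (mul_ne_zero (by norm_num) hs0) h4) h3
    · exact h3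
  have horth' : x' ⬝ᵥ x = 0 := by rw [dotProduct_comm]; exact horth
  obtain ⟨η, e1, e2⟩ := eig _ (Hs_transpose u x) hl.ne' (cubic h hs0 hL hl.ne' hx hg horth hB')
  obtain ⟨η', e1', e2'⟩ := eig _ (Hs_transpose u x') hl'.ne
    (cubic h hs0 hL hl'.ne hx' hg' horth' hB)
  have e3 : η = η' := by
    have a1 := k1_eq u x x'
    have a2 := k1_eq u x' x
    rw [e1, dotProduct_smul, hx', smul_eq_mul, mul_one] at a1
    rw [e1', dotProduct_smul, hx, smul_eq_mul, mul_one] at a2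
    rw [a1, a2]
    exact mix h x x'
  rw [← e3] at e2'
  have h1 : η * ((l' - l) * (η ^ 2 - l * l')) = 0 := by
    linear_combination l' * e2 - l * e2'
  rcases mul_eq_zero.1 h1 with h2 | h2
  · rw [h2] at e2
    have : l ^ 2 * l' ≠ 0 := mul_ne_zero (pow_ne_zero 2 hl.ne') hl'.ne
    apply this
    linarith
  · rcases mul_eq_zero.1 h2 with h3 | h3
    · linarith
    · nlinarith [sq_nonneg η, mul_pos hl (neg_pos.2 hl')]

end Pool.Agent.Helper45.PL4
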